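import Mathlib

/-!
# The rank threshold for free symmetries of good codes (helper54 for helper91): invariants of 2-groups
-/

namespace Pool.Agent.Lib.MP_0430e4_lc.Free2

open Finset Module

universe u

/-- the invariants of a linear representation over `F_2` -/
def invSub {M : Type} [Group M] {V : Type*} [AddCommGroup V] [Module (ZMod 2) V]
    (ρ : M →* (V →ₗ[ZMod 2] V)) : Submodule (ZMod 2) V where
  carrier := {v | ∀ m, ρ m v = v}
  add_mem' {a b} ha hb := fun m => by rw [map_add, ha m, hb m]
  zero_mem' := fun m => map_zero _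
  smul_mem' c v hv := fun m => by rw [map_smul, hv m]

theorem mem_invSub {M : Type} [Group M] {V : Type*} [AddCommGroup V] [Module (ZMod 2) V]
    (ρ : M →* (V →ₗ[ZMod 2] V)) (v : V) : v ∈ invSub ρ ↔ ∀ m, ρ m v = v := Iff.rfl

theorem invariants_aux (k : ℕ) : ∀ (M : Type) [Group M] [Finite M], Nat.card M = 2 ^ k →
    ∀ (V : Type u) [AddCommGroup V] [Module (ZMod 2) V] [FiniteDimensional (ZMod 2) V]
      (ρ : M →* (V →ₗ[ZMod 2] V)),
      finrank (ZMod 2) V ≤ Nat.card M * finrank (ZMod 2) (invSub ρ) := by
  induction k with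
  | zero =>
    intro M _ _ hM V _ _ _ ρ
    rw [pow_zero] at hM
    have hs : Subsingleton M := (Nat.card_eq_one_iff_unique.1 hM).1
    have htop : invSub ρ = ⊤ := by
      rw [eq_top_iff]
      intro v _ m
      rw [Subsingleton.elim m 1, map_one]
      rfl
    rw [hM, htop, finrank_top, one_mul]
  | succ k ih =>
    intro M _ _ hM V _ _ _ ρ
    have : Fact (Nat.Prime 2) := ⟨Nat.prime_two⟩
    obtain ⟨K, hK⟩ := Sylow.exists_subgroup_card_pow_prime 2 (G := M) (n := k)
      (by rw [hM]; exact pow_dvd_pow 2 (Nat.le_succ k))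
    have hidx : K.index = 2 := by
      have h1 := K.card_mul_index
      rw [hK, hM, pow_succ] at h1
      exact Nat.eq_of_mul_eq_mul_left (by positivity) h1
    have hnorm : K.Normal := Subgroup.normal_of_index_eq_two hidx
    obtain ⟨g, hg⟩ : ∃ g : M, g ∉ K := by
      by_contra hcon
      push Not at hcon
      have : K = ⊤ := eq_top_iff.2 fun x _ => hcon x
      rw [this, Subgroup.index_top] at hidx
      exact absurd hidx (by norm_num)
    let σ : K →* (V →ₗ[ZMod 2] V) := ρ.comp K.subtype
    have h1 := ih K hK V σ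
    -- `ρ g` acts on the invariants of `K`
    have hstab : ∀ v ∈ invSub σ, ρ g v ∈ invSub σ := by
      intro v hv m
      have hm : g⁻¹ * (m : M) * g ∈ K := by
        have := hnorm.conj_mem (m : M) m.2 g⁻¹
        simpa using this
      have h2 : ρ (g⁻¹ * (m : M) * g) v = v := hv ⟨_, hm⟩
      change ρ (m : M) (ρ g v) = ρ g v
      calc ρ (m : M) (ρ g v) = (ρ (m : M) * ρ g) v := rfl
        _ = ρ (g * (g⁻¹ * (m : M) * g)) v := by rw [← map_mul]; congr 2; group
        _ = ρ g (ρ (g⁻¹ * (m : M) * g) v) := by rw [map_mul]; rfl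
        _ = ρ g v := by rw [h2]
    have hsq : g * g ∈ K := by
      have := Subgroup.mul_self_mem_of_index_two hidx g
      exact this
    let T : invSub σ →ₗ[ZMod 2] invSub σ :=
      { toFun := fun v => ⟨ρ g v + v, (invSub σ).add_mem (hstab v v.2) v.2⟩
        map_add' := fun v w => by
          apply Subtype.ext
          simp only [Submodule.coe_add, map_add]
          abel
        map_smul' := fun c v => by
          apply Subtype.ext
          simp only [Submodule.coe_smul, map_smul, RingHom.id_apply, smul_add] }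
    have hT : ∀ v : invSub σ, ((T v : invSub σ) : V) = ρ g v + v := fun _ => rfl
    have htwo : ∀ v : V, v + v = 0 := by
      intro v
      rw [← two_smul (ZMod 2) v]
      have : (2 : ZMod 2) = 0 := rfl
      rw [this, zero_smul]
    have hTT : LinearMap.range T ≤ LinearMap.ker T := by
      rintro _ ⟨v, rfl⟩
      rw [LinearMap.mem_ker]
      apply Subtype.ext
      have h2 : ρ (g * g) (v : V) = v := v.2 ⟨_, hsq⟩
      have h3 : ρ g (ρ g (v : V)) = v := by
        rw [map_mul] at h2
        exact h2
      rw [hT, hT, map_add, h3, Submodule.coe_zero]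
      have h4 := htwo (v : V)
      have h5 := htwo (ρ g (v : V))
      calc (v : V) + ρ g v + (ρ g v + v) = (v + v) + (ρ g v + ρ g v) := by abel
        _ = 0 := by rw [h4, h5, add_zero]
    have hker : (LinearMap.ker T).map (invSub σ).subtype ≤ invSub ρ := by
      rintro _ ⟨v, hv, rfl⟩
      rw [SetLike.mem_coe, LinearMap.mem_ker] at hv
      have h2 : ρ g (v : V) + v = 0 := by
        rw [← hT, hv]; rfl
      have h3 : ρ g (v : V) = v := by
        have h4 := htwo (v : V)
        exact add_right_cancel (h2.trans h4.symm)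
      intro m
      rw [Submodule.coe_subtype]
      by_cases hm : m ∈ K
      · exact v.2 ⟨m, hm⟩
      · have hm' : m * g ∈ K := by
          rw [Subgroup.mul_mem_iff_of_index_two hidx]
          simp [hm, hg]
        have h5 : ρ (m * g) (v : V) = v := v.2 ⟨_, hm'⟩
        rw [map_mul] at h5
        have h6 : ρ m (ρ g (v : V)) = v := h5
        rw [h3] at h6
        exact h6
    have h2 := Submodule.finrank_mono hTT
    have h3 := LinearMap.finrank_range_add_finrank_ker T
    have h4 := Submodule.finrank_mono hker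
    have h5 : finrank (ZMod 2) ((LinearMap.ker T).map (invSub σ).subtype) =
        finrank (ZMod 2) (LinearMap.ker T) :=
      (Submodule.equivMapOfInjective (invSub σ).subtype (invSub σ).injective_subtype _).finrank_eq.symm
    have h6 : finrank (ZMod 2) (invSub σ) ≤ 2 * finrank (ZMod 2) (invSub ρ) := by omega
    calc finrank (ZMod 2) V ≤ Nat.card K * finrank (ZMod 2) (invSub σ) := h1
      _ ≤ Nat.card K * (2 * finrank (ZMod 2) (invSub ρ)) := Nat.mul_le_mul_left _ h6
      _ = Nat.card M * finrank (ZMod 2) (invSub ρ) := by rw [hK, hM, pow_succ]; ring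

/-- a 2-group has many invariants -/
theorem invariants {M : Type} [Group M] [Finite M] (hM : IsPGroup 2 M) {V : Type*} [AddCommGroup V]
    [Module (ZMod 2) V] [FiniteDimensional (ZMod 2) V] (ρ : M →* (V →ₗ[ZMod 2] V)) :
    ∃ W : Submodule (ZMod 2) V, (∀ v, v ∈ W ↔ ∀ m, ρ m v = v) ∧
      finrank (ZMod 2) V ≤ Nat.card M * finrank (ZMod 2) W := by
  have : Fact (Nat.Prime 2) := ⟨Nat.prime_two⟩
  obtain ⟨k, hk⟩ := IsPGroup.iff_card.1 hM
  exact ⟨invSub ρ, mem_invSub ρ, invariants_aux k M hk V ρ⟩

end Pool.Agent.Lib.MP_0430e4_lc.Free2
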