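import Mathlib
import Pool.Agent.Lib.MP_0430e4_lc.Free.Defs
import Pool.Agent.Lib.MP_0430e4_lc.Free2.L1a

/-!
# The rank threshold for free symmetries of good codes (helper54 for helper91): quotients by 2-groups
-/

namespace Pool.Agent.Lib.MP_0430e4_lc.Free2

open Finset Module
open Pool.Agent.Lib.MP_0430e4_lc.Free (Good)

section quot

variable {G : Type} [Group G] {X : Type} [MulAction G X] (M : Subgroup G)

/-- the orbits of a subgroup -/
abbrev Orb (X : Type) [MulAction G X] : Type := MulAction.orbitRel.Quotient M X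

theorem orb_rel {x y : X} (h : ∃ m ∈ M, m • y = x) :
    (Quotient.mk'' x : Orb M X) = Quotient.mk'' y := by
  obtain ⟨m, hm, h⟩ := h
  apply Quotient.sound
  exact ⟨⟨m, hm⟩, h⟩

theorem orb_exact {x y : X} (h : (Quotient.mk'' x : Orb M X) = Quotient.mk'' y) :
    ∃ m ∈ M, m • y = x := by
  have h1 : MulAction.orbitRel M X x y := Quotient.exact h
  obtain ⟨m, hm⟩ := h1
  exact ⟨m, m.2, hm⟩

variable [hN : M.Normal]

/-- the action of a group element on the orbits -/
def orbMap (g : G) : Orb M X → Orb M X :=
  Quotient.lift (fun x => (Quotient.mk'' (g • x) : Orb M X)) (by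
    intro x y h
    obtain ⟨m, hm⟩ := h
    apply orb_rel
    refine ⟨g * m * g⁻¹, hN.conj_mem _ m.2 g, ?_⟩
    have hm' : (m : G) • y = x := hm
    rw [← hm', smul_smul, smul_smul]
    congr 1
    group)

theorem orbMap_mk (g : G) (x : X) :
    orbMap M g (Quotient.mk'' x : Orb M X) = Quotient.mk'' (g • x) := rfl

theorem orbMap_eq {a b : G} (h : a⁻¹ * b ∈ M) (x : Orb M X) : orbMap M a x = orbMap M b x := by
  induction x using Quotient.inductionOn' with
  | h x =>
    rw [orbMap_mk, orbMap_mk]
    apply orb_rel
    refine ⟨a * b⁻¹, ?_, ?_⟩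
    · have h1 := hN.conj_mem _ h a
      have h2 : a * (a⁻¹ * b) * a⁻¹ = b * a⁻¹ := by group
      rw [h2] at h1
      have h3 := M.inv_mem h1
      rwa [mul_inv_rev, inv_inv] at h3
    · rw [smul_smul]
      congr 1
      group

/-- the action of the quotient group on the orbits -/
@[instance_reducible]
def orbAct : MulAction (G ⧸ M) (Orb M X) where
  smul q x := Quotient.liftOn' q (fun g => orbMap M g x)
    (fun _ _ h => orbMap_eq M (QuotientGroup.leftRel_apply.1 h) x)
  one_smul x := by
    induction x using Quotient.inductionOn' with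
    | h x =>
      change orbMap M (1 : G) (Quotient.mk'' x) = _
      rw [orbMap_mk, one_smul]
  mul_smul q r x := by
    induction x using Quotient.inductionOn' with
    | h x =>
      induction q using QuotientGroup.induction_on with
      | H g =>
        induction r using QuotientGroup.induction_on with
        | H h =>
          change orbMap M (g * h) (Quotient.mk'' x) = orbMap M g (orbMap M h (Quotient.mk'' x))
          rw [orbMap_mk, orbMap_mk, orbMap_mk, mul_smul]

end quot

theorem quot_step {G : Type} [Group G] [Finite G] {X : Type} [Fintype X] [Nonempty X]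
    [MulAction G X] (hfree : ∀ (g : G) (x : X), g • x = x → g = 1)
    (C : Submodule (ZMod 2) (X → ZMod 2)) (hC : ∀ g : G, ∀ f ∈ C, (fun x => f (g • x)) ∈ C)
    {ε δ : ℝ} (hgood : Good ε δ C) (M : Subgroup G) [M.Normal] (hM : IsPGroup 2 M) :
    ∃ (X' : Type) (_ : Fintype X') (_ : Nonempty X') (_ : MulAction (G ⧸ M) X')
      (C' : Submodule (ZMod 2) (X' → ZMod 2)),
      (∀ (g : G ⧸ M) (x : X'), g • x = x → g = 1) ∧
      (∀ g : G ⧸ M, ∀ f ∈ C', (fun x => f (g • x)) ∈ C') ∧
      Fintype.card X = Nat.card M * Fintype.card X' ∧ Good ε δ C' := by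
  classical
  let X' : Type := Orb M X
  let π : X → X' := fun x => (Quotient.mk'' x : Orb M X)
  have hπ : Function.Surjective π := Quotient.mk''_surjective
  have : Finite X' := Finite.of_surjective π hπ
  let ft : Fintype X' := Fintype.ofFinite X'
  have hne : Nonempty X' := Nonempty.map π inferInstance
  let act : MulAction (G ⧸ M) X' := orbAct M
  have hact : ∀ (g : G) (x : X), (g : G ⧸ M) • π x = π (g • x) := fun _ _ => rfl
  let L : (X' → ZMod 2) →ₗ[ZMod 2] (X → ZMod 2) := LinearMap.funLeft (ZMod 2) (ZMod 2) π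
  have hL : ∀ f x, L f x = f (π x) := fun _ _ => rfl
  have hLinj : Function.Injective L := LinearMap.funLeft_injective_of_surjective _ _ _ hπ
  let C' : Submodule (ZMod 2) (X' → ZMod 2) := C.comap L
  have hmem : ∀ f, f ∈ C' ↔ L f ∈ C := fun _ => Iff.rfl
  have hcardM : 0 < Nat.card M := Nat.card_pos
  have : Fintype M := Fintype.ofFinite M
  -- representatives
  let r : X' → X := Function.surjInv hπ
  have hr : ∀ x', π (r x') = x' := Function.surjInv_eq hπ
  let e : M × X' → X := fun p => (p.1 : G) • r p.2
  have hπe : ∀ p, π (e p) = p.2 := by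
    intro p
    refine Eq.trans ?_ (hr p.2)
    apply orb_rel
    exact ⟨p.1, p.1.2, rfl⟩
  have he : Function.Bijective e := by
    constructor
    · intro p q hpq
      have h1 : p.2 = q.2 := by rw [← hπe p, ← hπe q, hpq]
      have h2 : (p.1 : G) • r p.2 = (q.1 : G) • r q.2 := hpq
      rw [h1] at h2
      have h3 : ((q.1 : G)⁻¹ * (p.1 : G)) • r q.2 = r q.2 := by
        rw [mul_smul, h2, inv_smul_smul]
      have h4 := hfree _ _ h3
      have h5 : (p.1 : G) = q.1 := (inv_mul_eq_one.1 h4).symm
      exact Prod.ext (Subtype.ext h5) h1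
    · intro x
      have h1 : π x = π (r (π x)) := (hr _).symm
      obtain ⟨m, hm, h2⟩ := orb_exact M h1
      exact ⟨(⟨m, hm⟩, π x), h2⟩
  let E : M × X' ≃ X := Equiv.ofBijective e he
  have hcard : Fintype.card X = Nat.card M * Fintype.card X' := by
    rw [← Fintype.card_congr E, Fintype.card_prod, Nat.card_eq_fintype_card]
  have hnorm : ∀ f : X' → ZMod 2, hammingNorm (L f) = Nat.card M * hammingNorm f := by
    intro f
    unfold hammingNorm
    rw [Nat.card_eq_fintype_card, ← Finset.card_univ, ← Finset.card_product]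
    symm
    refine Finset.card_bij (fun p _ => E p) ?_ ?_ ?_
    · intro p hp
      simp only [mem_product, mem_univ, mem_filter, true_and] at hp ⊢
      rw [hL]
      have : π (E p) = p.2 := hπe p
      rw [this]
      exact hp
    · intro p _ q _ h
      exact E.injective h
    · intro x hx
      simp only [mem_filter, mem_univ, true_and] at hx
      refine ⟨E.symm x, ?_, E.apply_symm_apply x⟩
      simp only [mem_product, mem_univ, mem_filter, true_and]
      have h1 : π (E (E.symm x)) = (E.symm x).2 := hπe _
      rw [E.apply_symm_apply] at h1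
      rw [← h1]
      exact hx
  -- the representation of `M` on `C`
  let ρ : M →* (C →ₗ[ZMod 2] C) :=
    { toFun := fun m =>
        { toFun := fun f => ⟨fun x => (f : X → ZMod 2) (((m : G)⁻¹) • x), hC _ _ f.2⟩
          map_add' := fun f f' => rfl
          map_smul' := fun c f => rfl }
      map_one' := by
        ext f x
        change (f : X → ZMod 2) ((((1 : M) : G)⁻¹) • x) = (f : X → ZMod 2) x
        rw [OneMemClass.coe_one, inv_one, one_smul]
      map_mul' := by
        intro m m'
        ext f x
        change (f : X → ZMod 2) ((((m * m' : M) : G)⁻¹) • x) =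
          (f : X → ZMod 2) ((((m' : G))⁻¹) • (((m : G))⁻¹) • x)
        rw [smul_smul, Subgroup.coe_mul, mul_inv_rev] }
  have hρ : ∀ (m : M) (f : C) (x : X), (ρ m f : X → ZMod 2) x = (f : X → ZMod 2) (((m : G)⁻¹) • x) :=
    fun _ _ _ => rfl
  obtain ⟨W, hW, hWr⟩ := invariants hM ρ
  have hWC : W.map C.subtype ≤ C'.map L := by
    rintro _ ⟨f, hf, rfl⟩
    have hf' := (hW f).1 hf
    have h1 : L (fun q => (f : X → ZMod 2) (r q)) = (f : X → ZMod 2) := by
      funext x
      rw [hL]
      have h2 : π x = π (r (π x)) := (hr _).symm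
      obtain ⟨m, hm, h3⟩ := orb_exact M h2
      have h4 : (ρ ⟨m, hm⟩ f : X → ZMod 2) x = (f : X → ZMod 2) x := by rw [hf' ⟨m, hm⟩]
      rw [hρ] at h4
      rw [← h4]
      have h5 : r (π x) = m⁻¹ • x := by rw [eq_inv_smul_iff]; exact h3
      rw [h5]
    refine ⟨_, ?_, h1⟩
    rw [SetLike.mem_coe, hmem, h1]
    exact f.2
  have hfr : finrank (ZMod 2) C ≤ Nat.card M * finrank (ZMod 2) C' := by
    have h1 := Submodule.finrank_mono hWC
    have h2 : finrank (ZMod 2) (W.map C.subtype) = finrank (ZMod 2) W :=
      (Submodule.equivMapOfInjective C.subtype C.injective_subtype _).finrank_eq.symm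
    have h3 := Submodule.finrank_map_le L C'
    calc finrank (ZMod 2) C ≤ Nat.card M * finrank (ZMod 2) W := hWr
      _ ≤ Nat.card M * finrank (ZMod 2) C' := Nat.mul_le_mul_left _ (by omega)
  have hMr : (0 : ℝ) < Nat.card M := by exact_mod_cast hcardM
  refine ⟨X', ft, hne, act, C', ?_, ?_, hcard, ?_, ?_⟩
  · intro q x hq
    induction q using QuotientGroup.induction_on with
    | H g =>
      obtain ⟨x, rfl⟩ := hπ x
      rw [hact] at hq
      obtain ⟨m, hm, h1⟩ := orb_exact M hq
      have h2 : (m⁻¹ * g) • x = x := by rw [mul_smul, ← h1, inv_smul_smul]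
      have h3 := hfree _ _ h2
      rw [inv_mul_eq_one] at h3
      rw [← h3]
      exact (QuotientGroup.eq_one_iff m).2 hm
  · intro q f hf
    induction q using QuotientGroup.induction_on with
    | H g =>
      rw [hmem] at hf ⊢
      have h1 := hC g _ hf
      exact h1
  · have h1 := hgood.1
    rw [hcard] at h1
    push_cast at h1
    have h2 : (finrank (ZMod 2) C : ℝ) ≤ Nat.card M * finrank (ZMod 2) C' := by exact_mod_cast hfr
    have h3 : (Nat.card M : ℝ) * (ε * Fintype.card X') ≤ Nat.card M * finrank (ZMod 2) C' := by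
      calc (Nat.card M : ℝ) * (ε * Fintype.card X') = ε * (Nat.card M * Fintype.card X') := by ring
        _ ≤ _ := h1.trans h2
    exact le_of_mul_le_mul_left h3 hMr
  · intro f hf hf0
    have h1 := hgood.2 (L f) ((hmem f).1 hf) (fun h => hf0 (hLinj (by rw [h, map_zero])))
    rw [hcard, hnorm] at h1
    push_cast at h1
    have h3 : (Nat.card M : ℝ) * (δ * Fintype.card X') ≤ Nat.card M * hammingNorm f := by
      calc (Nat.card M : ℝ) * (δ * Fintype.card X') = δ * (Nat.card M * Fintype.card X') := by ring
        _ ≤ _ := h1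
    exact le_of_mul_le_mul_left h3 hMr

end Pool.Agent.Lib.MP_0430e4_lc.Free2
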