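import Mathlib
import Pool.Agent.Lib.MP_0430e4_lc.Free.Defs
import Pool.Agent.Lib.MP_0430e4_lc.Free.Basic

/-!
# The rank threshold for free abelian symmetries of good codes (helper91): definitions
-/

namespace Pool.Agent.Lib.MP_0430e4_lc.Free2

open Finset Module

/-- the Hamming weight, with a general index set -/
noncomputable def wtI {A ι : Type*} (f : A → ι → ZMod 2) : ℕ :=
  Set.ncard {q : A × ι | f q.1 q.2 ≠ 0}

/-- invariance under translations, with a general index set -/
def InvI {A ι : Type*} [AddCommGroup A] (C : Submodule (ZMod 2) (A → ι → ZMod 2)) : Prop :=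
  ∀ a, ∀ f ∈ C, (fun x => f (x + a)) ∈ C

/-- no element of `G` except `1` fixes a coordinate, and `G` preserves `C` -/
structure FreeAut {X : Type} (G : Subgroup (Equiv.Perm X))
    (C : Submodule (ZMod 2) (X → ZMod 2)) : Prop where
  free : ∀ g ∈ G, g ≠ 1 → ∀ x, g x ≠ x
  aut : ∀ g ∈ G, ∀ f ∈ C, f ∘ g ∈ C

/-- the words of small weight of length `M` -/
def low (M : ℕ) : Finset (Fin M → ZMod 2) :=
  univ.filter fun w => 200 * hammingNorm w ≤ M

theorem wtI_eq_sum {A ι : Type*} [Fintype A] [Fintype ι] (f : A → ι → ZMod 2) :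
    wtI f = ∑ x, hammingNorm (f x) := by
  classical
  unfold wtI
  have e1 : {q : A × ι | f q.1 q.2 ≠ 0} =
      ((univ.filter fun q : A × ι => f q.1 q.2 ≠ 0 : Finset _) : Set _) := by
    ext q; simp
  rw [e1, Set.ncard_coe_finset, Finset.card_eq_sum_card_fiberwise (f := Prod.fst) (t := univ)
    (fun _ _ => mem_coe.2 (mem_univ _))]
  apply Finset.sum_congr rfl
  intro x _
  unfold hammingNorm
  refine Finset.card_bij' (fun q _ => q.2) (fun i _ => (x, i)) ?_ ?_ ?_ ?_
  · intro q hq
    simp only [mem_filter, mem_univ, true_and] at hq ⊢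
    rw [← hq.2]
    exact hq.1
  · intro i hi
    simp only [mem_filter, mem_univ, true_and] at hi ⊢
    exact ⟨hi, trivial⟩
  · intro q hq
    simp only [mem_filter, mem_univ, true_and] at hq
    rw [← hq.2]
  · intro i _
    rfl

end Pool.Agent.Lib.MP_0430e4_lc.Free2
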