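import Mathlib
import Pool.Agent.Lib.MP_0430e4_lc.Free2.R0
import Pool.Agent.Lib.MP_0430e4_lc.Free.Rank

/-!
# The rank threshold, L2 (helper85): generators from the index
-/

namespace Pool.Agent.Lib.MP_0430e4_lc.Free2

open Finset Module
open Pool.Agent.Lib.MP_0430e4_lc.Free (mulRange)

theorem card_insert_closure {A : Type} [AddCommGroup A] [Finite A] (H H' : AddSubgroup A)
    (h : H < H') : 2 * Nat.card H ≤ Nat.card H' := by
  have h1 : Nat.card H ∣ Nat.card H' := AddSubgroup.card_dvd_of_le h.le
  obtain ⟨k, hk⟩ := h1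
  have h2 : 0 < Nat.card H := Nat.card_pos
  have h3 : 0 < Nat.card H' := Nat.card_pos
  rcases Nat.lt_or_ge k 2 with h4 | h4
  · exfalso
    interval_cases k
    · omega
    · rw [mul_one] at hk
      have h5 : H = H' := by
        apply AddSubgroup.eq_of_le_of_card_ge h.le
        rw [hk]
      exact h.ne h5
  · rw [hk]
    nlinarith

theorem gen_of_index (A : Type) [AddCommGroup A] [Finite A] {e s : ℕ}
    (hA : ∀ a : A, (2 ^ s * e) • a = 0) :
    ∃ S : Finset A, 2 ^ S.card ≤ (mulRange A (2 * e)).index ∧
      AddSubgroup.closure (S : Set A) = ⊤ := by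
  classical
  have := Fintype.ofFinite A
  set N : AddSubgroup A := mulRange A (2 * e) with hN
  -- a largest set of independent generators over `N`
  let P : Finset A → Prop := fun S =>
    2 ^ S.card * Nat.card N ≤ Nat.card (AddSubgroup.closure (S : Set A) ⊔ N : AddSubgroup A)
  obtain ⟨S, hSP, hSmax⟩ := Finset.exists_max_image (univ.filter P) Finset.card
    ⟨∅, by simp [P]⟩
  rw [mem_filter] at hSP
  have hP : P S := hSP.2
  have htop : AddSubgroup.closure (S : Set A) ⊔ N = ⊤ := by
    by_contra hne
    obtain ⟨a, -, ha⟩ := SetLike.exists_of_lt (lt_top_iff_ne_top.2 hne)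
    have haS : a ∉ S := fun h =>
      ha (AddSubgroup.mem_sup_left (AddSubgroup.subset_closure h))
    have h1 : AddSubgroup.closure (S : Set A) ⊔ N <
        AddSubgroup.closure ((insert a S : Finset A) : Set A) ⊔ N := by
      refine lt_of_le_of_ne (sup_le_sup_right (AddSubgroup.closure_mono ?_) _) ?_
      · intro x hx
        simp only [coe_insert]
        exact Set.mem_insert_of_mem _ hx
      · intro h
        apply ha
        rw [h]
        exact AddSubgroup.mem_sup_left (AddSubgroup.subset_closure (by simp))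
    have h2 := card_insert_closure _ _ h1
    have h3 : P (insert a S) := by
      show 2 ^ (insert a S).card * Nat.card N ≤ _
      rw [Finset.card_insert_of_notMem haS, pow_succ]
      have : 2 ^ S.card * Nat.card N ≤
        Nat.card (AddSubgroup.closure (S : Set A) ⊔ N : AddSubgroup A) := hP
      calc 2 ^ S.card * 2 * Nat.card N = 2 * (2 ^ S.card * Nat.card N) := by ring
        _ ≤ 2 * Nat.card (AddSubgroup.closure (S : Set A) ⊔ N : AddSubgroup A) := by omega
        _ ≤ _ := h2
    have h4 := hSmax (insert a S) (by rw [mem_filter]; exact ⟨mem_univ _, h3⟩)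
    rw [Finset.card_insert_of_notMem haS] at h4
    omega
  refine ⟨S, ?_, ?_⟩
  · have h1 : 2 ^ S.card * Nat.card N ≤
        Nat.card (AddSubgroup.closure (S : Set A) ⊔ N : AddSubgroup A) := hP
    rw [htop, AddSubgroup.card_top, ← N.index_mul_card] at h1
    exact Nat.le_of_mul_le_mul_right h1 Nat.card_pos
  · have key : ∀ k : ℕ, ∀ a : A, ∃ c ∈ AddSubgroup.closure (S : Set A), ∃ b : A,
        a = c + (2 * e) ^ k • b := by
      intro k
      induction k with
      | zero => exact fun a => ⟨0, zero_mem _, a, by simp⟩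
      | succ k ih =>
        intro a
        obtain ⟨c, hc, b, hb⟩ := ih a
        have h1 : b ∈ AddSubgroup.closure (S : Set A) ⊔ N := by rw [htop]; trivial
        obtain ⟨d, hd, n, hn, hdn⟩ := AddSubgroup.mem_sup.1 h1
        obtain ⟨b', hb'⟩ := hn
        refine ⟨c + (2 * e) ^ k • d, add_mem hc (nsmul_mem hd _), b', ?_⟩
        have h2 : n = (2 * e) • b' := hb'.symm
        rw [hb, ← hdn, h2, smul_add, smul_smul, pow_succ]
        abel
    rw [eq_top_iff]
    intro a _
    obtain ⟨c, hc, b, hb⟩ := key (s + 1) a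
    have h1 : (2 * e) ^ (s + 1) • b = 0 := by
      rw [show (2 * e) ^ (s + 1) = (2 ^ s * e) * (2 * e ^ s) by rw [mul_pow]; ring, mul_smul,
        hA]
    rw [hb, h1, add_zero]
    exact hc

end Pool.Agent.Lib.MP_0430e4_lc.Free2
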