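import Mathlib
import Pool.Agent.Lib.MP_0430e4_lc.Free2.R0
import Pool.Agent.Lib.MP_0430e4_lc.Free.Final

/-!
# The rank threshold for free abelian symmetries of good codes (helper91): the lower bound for
actions
-/

namespace Pool.Agent.Lib.MP_0430e4_lc.Free2

open Finset Module
open Pool.Agent.Lib.MP_0430e4_lc.Free (wt Good mulRange index_bound exists_coords onX onX_apply
  onX_surjective norm_onX)


theorem lower_act {e n : ℕ} (he : Odd e) (hn : 0 < n) {ε δ : ℝ} (hε : 0 < ε) (hδ : 0 < δ) :
    ∃ D > (0 : ℝ), ∀ (X : Type) [Fintype X] [Nonempty X] (A : Type) [AddCommGroup A] [Finite A]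
      [AddAction A X], (∀ (a : A) (x : X), a +ᵥ x = x → a = 0) →
      ∀ (C : Submodule (ZMod 2) (X → ZMod 2)), (∀ a : A, ∀ f ∈ C, (fun x => f (a +ᵥ x)) ∈ C) →
      Good ε δ C → ∀ s : ℕ, (∀ a : A, (2 ^ s * e) • a = 0) →
      Real.log ((mulRange A n).index) ≤ D * (Fintype.card X / Nat.card A) := by
  classical
  obtain ⟨D, hD, hb⟩ := index_bound he hε hδ n hn
  refine ⟨D, hD, ?_⟩
  intro X _ _ A _ _ _ hfr C haut hgood s hexpA
  obtain ⟨ℓ, e', he'⟩ := exists_coords A X hfr
  have hcard : Fintype.card X = Nat.card A * ℓ := by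
    rw [← Nat.card_eq_fintype_card, ← Nat.card_congr e', Nat.card_prod, Nat.card_eq_fintype_card
      (α := Fin ℓ), Fintype.card_fin]
  have hA0 : 0 < Nat.card A := Nat.card_pos
  have hℓ : 1 ≤ ℓ := by
    have h1 : 0 < Fintype.card X := Fintype.card_pos
    rw [hcard] at h1
    exact Nat.pos_of_mul_pos_left h1
  have hcard' : (Fintype.card X : ℝ) = ℓ * Nat.card A := by rw [hcard]; push_cast; ring
  let C' : Submodule (ZMod 2) (A → Fin ℓ → ZMod 2) := C.comap (onX e')
  have hInv : Free.Inv C' := by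
    intro a f hf
    have h1 := haut a _ hf
    have h2 : onX e' (fun x => f (x + a)) = fun x => onX e' f (a +ᵥ x) := by
      funext x
      rw [onX_apply, onX_apply]
      have h3 : e'.symm (a +ᵥ x) = ((e'.symm x).1 + a, (e'.symm x).2) := by
        rw [Equiv.symm_apply_eq, add_comm, he' a (e'.symm x).1 (e'.symm x).2]
        show _ = a +ᵥ e' (e'.symm x)
        rw [Equiv.apply_symm_apply]
      rw [h3]
    show onX e' (fun x => f (x + a)) ∈ C
    rw [h2]
    exact h1
  have hmap : C'.map (onX e') = C := Submodule.map_comap_eq_of_surjective (onX_surjective e') C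
  have hrate : ε * (ℓ * Nat.card A) ≤ finrank (ZMod 2) C' := by
    have h1 : finrank (ZMod 2) C ≤ finrank (ZMod 2) C' := by
      rw [← hmap]
      exact Submodule.finrank_map_le _ _
    have h2 := hgood.1
    rw [hcard'] at h2
    exact h2.trans (by exact_mod_cast h1)
  have hdist : ∀ f ∈ C', f ≠ 0 → δ * (ℓ * Nat.card A) ≤ wt f := by
    intro f hf h0
    have h1 : onX e' f ≠ 0 := by
      intro h1
      apply h0
      funext a j
      have h2 := congrFun h1 (e' (a, j))
      rw [onX_apply, e'.symm_apply_apply] at h2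
      exact h2
    have h2 := hgood.2 _ hf h1
    rw [hcard', norm_onX] at h2
    exact h2
  have key := hb A s hexpA ℓ hℓ C' hInv hrate hdist
  rw [hcard', mul_div_assoc, div_self (by exact_mod_cast hA0.ne'), mul_one, mul_comm D]
  exact key


end Pool.Agent.Lib.MP_0430e4_lc.Free2
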