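import Mathlib
import Pool.Agent.Lib.MP_0430e4_lc.Free2.R0

/-!
# The rank threshold, L5 (helper85): generators of a finite 2-group
-/

namespace Pool.Agent.Lib.MP_0430e4_lc.Free2

open Finset Module

theorem two_group_gen {G : Type} [Group G] [Finite G] (hG : IsPGroup 2 G) :
    ∃ M : Subgroup G, M.Normal ∧ IsPGroup 2 M ∧ (∀ g h : G, g * h * g⁻¹ * h⁻¹ ∈ M) ∧
      (∀ g : G, g ^ (2 ^ 1 * 1) ∈ M) ∧
      ∀ S : Set G, Subgroup.closure ((M : Set G) ∪ S) = ⊤ → Subgroup.closure S = ⊤ := by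
  classical
  let M : Subgroup G := Subgroup.closure (Set.range fun g : G => g ^ 2)
  have hsq : ∀ g : G, g ^ 2 ∈ M := fun g => Subgroup.subset_closure ⟨g, rfl⟩
  have hnorm : M.Normal := by
    refine ⟨fun x hx g => ?_⟩
    have hx' : x ∈ Subgroup.closure (Set.range fun g : G => g ^ 2) := hx
    induction hx' using Subgroup.closure_induction with
    | mem y hy =>
      obtain ⟨z, rfl⟩ := hy
      have h1 := hsq (g * z * g⁻¹)
      rwa [conj_pow] at h1
    | one => simp
    | mul y z hy hz ihy ihz =>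
      have h1 := M.mul_mem (ihy hy) (ihz hz)
      rwa [show g * y * g⁻¹ * (g * z * g⁻¹) = g * (y * z) * g⁻¹ by group] at h1
    | inv y hy ihy =>
      have h1 := M.inv_mem (ihy hy)
      rwa [show (g * y * g⁻¹)⁻¹ = g * y⁻¹ * g⁻¹ by group] at h1
  refine ⟨M, hnorm, hG.to_subgroup M, ?_, ?_, ?_⟩
  · intro g h
    have h1 := M.mul_mem (M.mul_mem (hsq (g * h)) (hnorm.conj_mem _ (hsq g⁻¹) h⁻¹)) (hsq h⁻¹)
    rwa [show (g * h) ^ 2 * (h⁻¹ * g⁻¹ ^ 2 * h⁻¹⁻¹) * h⁻¹ ^ 2 = g * h * g⁻¹ * h⁻¹ by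
      simp only [pow_two]; group] at h1
  · intro g
    exact hsq g
  · intro S hS
    rcases eq_top_or_exists_le_coatom (Subgroup.closure S) with h | ⟨H, hH, hle⟩
    · exact h
    exfalso
    have := Fintype.ofFinite G
    have : Fact (Nat.Prime 2) := ⟨Nat.prime_two⟩
    have hnil : Group.IsNilpotent G := hG.isNilpotent
    have hHn : H.Normal := Subgroup.NormalizerCondition.normal_of_coatom H
      Group.normalizerCondition_of_isNilpotent hH
    have hMH : M ≤ H := by
      refine (Subgroup.closure_le H).2 ?_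
      rintro _ ⟨g, rfl⟩
      by_contra hg
      have hg' : g ^ 2 ∉ H := hg
      have h1 : H ⊔ Subgroup.zpowers (g ^ 2) = ⊤ := by
        apply hH.2
        refine lt_of_le_of_ne le_sup_left ?_
        intro h2
        apply hg'
        rw [h2]
        exact Subgroup.mem_sup_right (Subgroup.mem_zpowers _)
      have h2 : g ∈ H ⊔ Subgroup.zpowers (g ^ 2) := by rw [h1]; trivial
      rw [Subgroup.mem_sup_of_normal_left] at h2
      obtain ⟨y, hy, z, hz, hyz⟩ := h2
      obtain ⟨k, rfl⟩ := Subgroup.mem_zpowers_iff.1 hz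
      have h3 : g ^ (1 - 2 * k) ∈ H := by
        have h4 : y = g ^ (1 - 2 * k) := by
          have h5 : y = g * ((g ^ 2) ^ k)⁻¹ := eq_mul_inv_of_mul_eq hyz
          rw [h5, zpow_sub, zpow_one, zpow_mul, zpow_ofNat]
        rw [← h4]
        exact hy
      obtain ⟨n, hn⟩ := hG g
      have h5 : IsCoprime (1 - 2 * k) ((2 : ℤ) ^ n) := by
        apply IsCoprime.pow_right
        exact ⟨1, k, by ring⟩
      obtain ⟨a, b, hab⟩ := h5
      have h6 : g = (g ^ (1 - 2 * k)) ^ a := by
        rw [← zpow_mul]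
        have h7 : g ^ ((2 : ℤ) ^ n * b) = 1 := by
          rw [zpow_mul]
          have : g ^ ((2 : ℤ) ^ n) = 1 := by
            rw [← hn]
            norm_cast
          rw [this, one_zpow]
        calc g = g ^ (a * (1 - 2 * k) + b * 2 ^ n) := by rw [hab, zpow_one]
          _ = g ^ ((1 - 2 * k) * a) * g ^ ((2 : ℤ) ^ n * b) := by
            rw [← zpow_add]; congr 1; ring
          _ = g ^ ((1 - 2 * k) * a) := by rw [h7, mul_one]
      apply hg'
      apply H.pow_mem
      rw [h6]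
      exact H.zpow_mem h3 a
    apply hH.1
    rw [eq_top_iff, ← hS, Subgroup.closure_le]
    rintro x (hx | hx)
    · exact hMH hx
    · exact hle (Subgroup.subset_closure hx)

end Pool.Agent.Lib.MP_0430e4_lc.Free2
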