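import Mathlib
import Pool.Agent.Lib.MP_0430e4_lc.Free2.R0
import Pool.Agent.Lib.MP_0430e4_lc.Free.Final
import Pool.Agent.Lib.MP_0430e4_lc.Free2.L1b
import Pool.Agent.Lib.MP_0430e4_lc.Free2.L2
import Pool.Agent.Lib.MP_0430e4_lc.Free2.L3
import Pool.Agent.Lib.MP_0430e4_lc.Free2.L5

/-!
# The rank threshold for free abelian symmetries of good codes (helper91): the lower bound
-/

namespace Pool.Agent.Lib.MP_0430e4_lc.Free2

open Finset Module
open Pool.Agent.Lib.MP_0430e4_lc.Free (wt Inv Good mulRange exists_local)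

/-- lifting generators of a quotient -/
theorem lift_gen {G : Type} [Group G] (M : Subgroup G) [M.Normal] (T : Finset (G ⧸ M))
    (hT : Subgroup.closure (T : Set (G ⧸ M)) = ⊤) :
    ∃ S : Finset G, S.card ≤ T.card ∧ Subgroup.closure ((M : Set G) ∪ S) = ⊤ := by
  classical
  refine ⟨T.image Quotient.out, card_image_le, ?_⟩
  rw [eq_top_iff]
  intro g _
  set K := Subgroup.closure ((M : Set G) ∪ (T.image Quotient.out : Finset G)) with hK
  have hMK : M ≤ K := fun x hx => Subgroup.subset_closure (Or.inl hx)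
  have h1 : K.map (QuotientGroup.mk' M) = ⊤ := by
    rw [eq_top_iff, ← hT, Subgroup.closure_le]
    intro t ht
    refine ⟨Quotient.out t, Subgroup.subset_closure (Or.inr ?_), ?_⟩
    · rw [mem_coe, mem_image]
      exact ⟨t, ht, rfl⟩
    · exact QuotientGroup.out_eq' t
  have h2 : QuotientGroup.mk' M g ∈ K.map (QuotientGroup.mk' M) := by rw [h1]; trivial
  obtain ⟨k, hk, hkg⟩ := h2
  have h3 : k⁻¹ * g ∈ M := QuotientGroup.eq.1 hkg
  have h4 : g = k * (k⁻¹ * g) := by group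
  rw [h4]
  exact K.mul_mem hk (hMK h3)

/-- **The lower bound**, abstract groups -/
theorem lower_rank {e : ℕ} (he : Odd e) {ε δ : ℝ} (hε : 0 < ε) (hδ : 0 < δ) :
    ∃ K > (0 : ℝ), ∀ (X : Type) [Fintype X] [Nonempty X] (G : Type) [Group G] [Finite G]
      [MulAction G X], (∀ (g : G) (x : X), g • x = x → g = 1) →
      ∀ (C : Submodule (ZMod 2) (X → ZMod 2)), (∀ g : G, ∀ f ∈ C, (fun x => f (g • x)) ∈ C) →
      Good ε δ C → ∀ M : Subgroup G, M.Normal → IsPGroup 2 M →
      (∀ g h : G, g * h * g⁻¹ * h⁻¹ ∈ M) → ∀ s : ℕ, (∀ g : G, g ^ (2 ^ s * e) ∈ M) →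
      ∃ S : Finset G, (S.card : ℝ) ≤ K * (Fintype.card X / Nat.card G) ∧
        Subgroup.closure ((M : Set G) ∪ S) = ⊤ := by
  classical
  have he0 : 0 < e := he.pos
  obtain ⟨D, hD, hb⟩ := lower_act he (n := 2 * e) (by omega) hε hδ
  have hlog : 0 < Real.log 2 := Real.log_pos (by norm_num)
  refine ⟨D / Real.log 2, div_pos hD hlog, ?_⟩
  intro X _ _ G _ _ _ hfree C hC hgood M hMn hM2 hcomm s hexp
  obtain ⟨X', _, _, _, C', hfree', hC', hcard, hgood'⟩ := quot_step hfree C hC hgood M hM2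
  let _ : CommGroup (G ⧸ M) :=
    { (inferInstance : Group (G ⧸ M)) with
      mul_comm := fun a b => by
        obtain ⟨g, rfl⟩ := QuotientGroup.mk_surjective a
        obtain ⟨h, rfl⟩ := QuotientGroup.mk_surjective b
        rw [← QuotientGroup.mk_mul, ← QuotientGroup.mk_mul]
        apply QuotientGroup.eq.2
        have h1 := hcomm h⁻¹ g⁻¹
        have h2 : (g * h)⁻¹ * (h * g) = h⁻¹ * g⁻¹ * h⁻¹⁻¹ * g⁻¹⁻¹ := by group
        rw [h2]
        exact h1 }
  have hfr : ∀ (a : Additive (G ⧸ M)) (x : X'), a +ᵥ x = x → a = 0 := by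
    intro a x h
    apply Additive.toMul.injective
    exact hfree' (Additive.toMul a) x h
  have hexpA : ∀ a : Additive (G ⧸ M), (2 ^ s * e) • a = 0 := by
    intro a
    apply Additive.toMul.injective
    show (Additive.toMul a) ^ (2 ^ s * e) = 1
    obtain ⟨g, hg⟩ := QuotientGroup.mk_surjective (Additive.toMul a)
    rw [← hg, ← QuotientGroup.mk_pow]
    exact (QuotientGroup.eq_one_iff _).2 (hexp g)
  have key := hb X' (Additive (G ⧸ M)) hfr C' (fun a f hf => hC' (Additive.toMul a) f hf) hgood' s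
    hexpA
  obtain ⟨T, hTcard, hT⟩ := gen_of_index (Additive (G ⧸ M)) hexpA
  have hTc : Subgroup.closure ((T.image Additive.toMul : Finset (G ⧸ M)) : Set (G ⧸ M)) = ⊤ := by
    rw [eq_top_iff]
    intro x _
    have h1 : Additive.ofMul x ∈ AddSubgroup.closure (T : Set (Additive (G ⧸ M))) := by
      rw [hT]; trivial
    refine AddSubgroup.closure_induction (p := fun y _ => Additive.toMul y ∈
      Subgroup.closure ((T.image Additive.toMul : Finset (G ⧸ M)) : Set (G ⧸ M))) ?_ ?_ ?_ ?_ h1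
    · intro y hy
      apply Subgroup.subset_closure
      rw [mem_coe, mem_image]
      exact ⟨y, hy, rfl⟩
    · exact Subgroup.one_mem _
    · intro y z _ _ hy hz
      exact Subgroup.mul_mem _ hy hz
    · intro y _ hy
      exact Subgroup.inv_mem _ hy
  obtain ⟨S, hS, hSg⟩ := lift_gen M _ hTc
  refine ⟨S, ?_, hSg⟩
  have hST : S.card ≤ T.card := hS.trans card_image_le
  have hidx : (0 : ℝ) < (2 : ℝ) ^ T.card := by positivity
  have h1 : (T.card : ℝ) * Real.log 2 ≤ Real.log ((mulRange (Additive (G ⧸ M)) (2 * e)).index) := by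
    rw [← Real.log_pow]
    exact Real.log_le_log hidx (by exact_mod_cast hTcard)
  have h2 : (Fintype.card X' : ℝ) / Nat.card (Additive (G ⧸ M)) =
      Fintype.card X / Nat.card G := by
    have h3 : Nat.card G = Nat.card (G ⧸ M) * Nat.card M :=
      Subgroup.card_eq_card_quotient_mul_card_subgroup M
    have h4 : Nat.card (Additive (G ⧸ M)) = Nat.card (G ⧸ M) := rfl
    rw [h4, h3, hcard]
    have h5 : (0 : ℝ) < Nat.card M := by exact_mod_cast Nat.card_pos
    have h6 : (0 : ℝ) < Nat.card (G ⧸ M) := by exact_mod_cast Nat.card_pos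
    push_cast
    field_simp
  rw [h2] at key
  have h3 : (S.card : ℝ) ≤ T.card := by exact_mod_cast hST
  have h4 : (S.card : ℝ) * Real.log 2 ≤ D * (Fintype.card X / Nat.card G) :=
    (mul_le_mul_of_nonneg_right h3 hlog.le).trans (h1.trans key)
  rw [div_mul_eq_mul_div, le_div_iff₀ hlog]
  exact h4

/-- the lower bound, for groups of permutations -/
theorem lower_perm {e : ℕ} (he : Odd e) {ε δ : ℝ} (hε : 0 < ε) (hδ : 0 < δ) :
    ∃ K > (0 : ℝ), ∀ (X : Type) [Fintype X] [Nonempty X] (C : Submodule (ZMod 2) (X → ZMod 2))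
      (G : Subgroup (Equiv.Perm X)), Good ε δ C → FreeAut G C →
      ∀ M : Subgroup G, M.Normal → IsPGroup 2 M → (∀ g h : G, g * h * g⁻¹ * h⁻¹ ∈ M) →
      ∀ s : ℕ, (∀ g : G, g ^ (2 ^ s * e) ∈ M) →
      ∃ S : Finset G, (S.card : ℝ) ≤ K * (Fintype.card X / Nat.card G) ∧
        Subgroup.closure ((M : Set G) ∪ S) = ⊤ := by
  obtain ⟨K, hK, h⟩ := lower_rank he hε hδ
  refine ⟨K, hK, ?_⟩
  intro X _ _ C G hgood hfree M hMn hM2 hcomm s hexp
  refine h X G ?_ C ?_ hgood M hMn hM2 hcomm s hexp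
  · intro g x hgx
    by_contra hne
    apply hfree.free g g.2 _ x hgx
    intro h1
    exact hne (Subtype.ext h1)
  · intro g f hf
    exact hfree.aut g g.2 f hf

/-- the lower bound for 2-groups -/
theorem lower_two {ε δ : ℝ} (hε : 0 < ε) (hδ : 0 < δ) :
    ∃ K > (0 : ℝ), ∀ (X : Type) [Fintype X] [Nonempty X] (C : Submodule (ZMod 2) (X → ZMod 2))
      (G : Subgroup (Equiv.Perm X)), Good ε δ C → FreeAut G C → IsPGroup 2 G →
      ∃ S : Finset G, (S.card : ℝ) ≤ K * (Fintype.card X / Nat.card G) ∧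
        Subgroup.closure (S : Set G) = ⊤ := by
  obtain ⟨K, hK, h⟩ := lower_perm (e := 1) odd_one hε hδ
  refine ⟨K, hK, ?_⟩
  intro X _ _ C G hgood hfree hG
  obtain ⟨M, hMn, hM2, hcomm, hexp, hgen⟩ := two_group_gen hG
  obtain ⟨S, hS, hSg⟩ := h X C G hgood hfree M hMn hM2 hcomm 1 hexp
  exact ⟨S, hS, hgen _ hSg⟩

end Pool.Agent.Lib.MP_0430e4_lc.Free2
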