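import Mathlib
import Pool.Agent.Lib.MP_0430e4_lc.Free2.R0
import Pool.Agent.Lib.MP_0430e4_lc.Free.Tanner

/-!
# Free abelian symmetries of good codes (helper91, module U7): mixing for points and lines
-/

namespace Pool.Agent.Lib.MP_0430e4_lc.Free2

open Finset Module

section mixlines

variable {A : Type*} [AddCommGroup A] [Fintype A]

theorem mixl_id [DecidableEq A] (b : A) (S T : Finset A) :
    ∑ χ : AddChar A ℂ, (∑ x ∈ S, χ x) * χ b * (∑ z ∈ T, χ (-z)) =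
      (Fintype.card A : ℂ) * (S.filter fun a => a + b ∈ T).card := by
  classical
  have h1 : ∀ χ : AddChar A ℂ, (∑ x ∈ S, χ x) * χ b * (∑ z ∈ T, χ (-z)) =
      ∑ q ∈ S, ∑ z ∈ T, χ (q + b - z) := by
    intro χ
    rw [Finset.sum_mul, Finset.sum_mul_sum]
    refine Finset.sum_congr rfl fun q _ => Finset.sum_congr rfl fun z _ => ?_
    rw [sub_eq_add_neg, AddChar.map_add_eq_mul, AddChar.map_add_eq_mul]
  simp only [h1]
  rw [Finset.sum_comm]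
  have h2 : ∀ q : A, ∑ χ : AddChar A ℂ, ∑ z ∈ T, χ (q + b - z) =
      if q + b ∈ T then (Fintype.card A : ℂ) else 0 := by
    intro q
    rw [Finset.sum_comm]
    simp only [AddChar.sum_apply_eq_ite]
    split_ifs with h
    · rw [Finset.sum_eq_single (q + b)]
      · rw [sub_self, if_pos rfl]
      · intro y _ hy
        rw [if_neg (sub_ne_zero.2 (Ne.symm hy))]
      · intro h'; exact absurd h h'
    · apply Finset.sum_eq_zero
      intro z hz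
      rw [if_neg]
      intro h3
      rw [sub_eq_zero.1 h3] at h
      exact h hz
  simp only [h2]
  rw [← Finset.sum_filter, Finset.sum_const, nsmul_eq_mul, mul_comm]

theorem mixl_id2 [DecidableEq A] {n Δ : ℕ} (g : Fin n → Fin Δ → A) (T : Finset A)
    (T' : Fin n → Finset A) :
    ∑ χ : AddChar A ℂ, (∑ x ∈ T, χ x) *
      ∑ j, ((∑ s, χ (g j s)) * (∑ z ∈ T' j, χ (-z))) = (Fintype.card A : ℂ) *
        ((∑ j, ∑ s, (T.filter fun a => a + g j s ∈ T' j).card : ℕ) : ℂ) := by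
  have e1 : ∀ χ : AddChar A ℂ, (∑ x ∈ T, χ x) *
      ∑ j, ((∑ s, χ (g j s)) * (∑ z ∈ T' j, χ (-z))) =
      ∑ j, ∑ s, (∑ x ∈ T, χ x) * χ (g j s) * (∑ z ∈ T' j, χ (-z)) := by
    intro χ
    rw [Finset.mul_sum]
    refine Finset.sum_congr rfl fun j _ => ?_
    generalize (∑ x ∈ T, χ x) = a
    generalize (∑ z ∈ T' j, χ (-z)) = b
    rw [Finset.sum_mul, Finset.mul_sum]
    refine Finset.sum_congr rfl fun s _ => ?_
    ring
  have e2 : ∀ j, ∑ χ : AddChar A ℂ, ∑ s, (∑ x ∈ T, χ x) * χ (g j s) * (∑ z ∈ T' j, χ (-z)) =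
      ∑ s, (Fintype.card A : ℂ) * (T.filter fun a => a + g j s ∈ T' j).card := by
    intro j
    rw [Finset.sum_comm]
    exact Finset.sum_congr rfl fun s _ => mixl_id (g j s) T (T' j)
  simp only [e1]
  rw [Finset.sum_comm]
  simp only [e2]
  push_cast
  rw [Finset.mul_sum]
  refine Finset.sum_congr rfl fun j _ => ?_
  rw [Finset.mul_sum]

omit [Fintype A] in
/-- the Fourier transform of a `u`-periodic set is supported on the characters trivial at `u` -/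
theorem mixl_zero (T : Finset A) (u : A) (hT : ∀ a ∈ T, a + u ∈ T) (χ : AddChar A ℂ)
    (h : χ u ≠ 1) : ∑ z ∈ T, χ z = 0 := by
  classical
  have himg : T.image (fun a => a + u) = T := by
    apply Finset.eq_of_subset_of_card_le
    · intro x hx
      obtain ⟨a, ha, rfl⟩ := Finset.mem_image.1 hx
      exact hT a ha
    · rw [Finset.card_image_of_injective _ (add_left_injective u)]
  have h1 : ∑ z ∈ T, χ z = χ u * ∑ z ∈ T, χ z := by
    conv_lhs => rw [← himg]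
    rw [Finset.sum_image (fun a _ b _ hab => add_left_injective u hab), Finset.mul_sum]
    refine Finset.sum_congr rfl fun z _ => ?_
    rw [AddChar.map_add_eq_mul, mul_comm]
  have h2 : (1 - χ u) * ∑ z ∈ T, χ z = 0 := by
    rw [sub_mul, one_mul, ← h1, sub_self]
  rcases mul_eq_zero.1 h2 with h3 | h3
  · exact absurd (sub_eq_zero.1 h3).symm h
  · exact h3

theorem mixl_num {x P S l n Δ : ℝ} (hl : 0 ≤ l) (hn : 0 ≤ n)
    (hD : 0 ≤ Δ) (hS : 0 ≤ S) (hP2 : P ^ 2 ≤ (l ^ 2 * (n * Δ ^ 2)) * S) :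
    x * P ≤ l * Δ / 2 * (n * x ^ 2 + S) := by
  refine (le_abs_self _).trans (abs_le_of_sq_le_sq ?_ (by positivity))
  have h1 : (x * P) ^ 2 ≤ x ^ 2 * ((l ^ 2 * (n * Δ ^ 2)) * S) := by
    rw [mul_pow]
    exact mul_le_mul_of_nonneg_left hP2 (by positivity)
  refine h1.trans ?_
  have h2 : 4 * (n * x ^ 2 * S) ≤ (n * x ^ 2 + S) ^ 2 := by
    nlinarith [sq_nonneg (n * x ^ 2 - S)]
  calc x ^ 2 * ((l ^ 2 * (n * Δ ^ 2)) * S) = (l * Δ / 2) ^ 2 * (4 * (n * x ^ 2 * S)) := by ring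
    _ ≤ (l * Δ / 2) ^ 2 * (n * x ^ 2 + S) ^ 2 := mul_le_mul_of_nonneg_left h2 (by positivity)
    _ = _ := by ring

theorem mixl_norm [DecidableEq A] {n Δ : ℕ} (g : Fin n → Fin Δ → A) (T : Finset A)
    (T' : Fin n → Finset A) :
    (Fintype.card A : ℝ) * ((∑ j, ∑ s, (T.filter fun a => a + g j s ∈ T' j).card : ℕ) : ℝ) ≤
      ∑ χ : AddChar A ℂ, ‖∑ x ∈ T, χ x‖ *
        ∑ j, (‖∑ s, χ (g j s)‖ * ‖∑ z ∈ T' j, χ z‖) := by
  have hid := mixl_id2 g T T'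
  generalize (∑ j, ∑ s, (T.filter fun a => a + g j s ∈ T' j).card : ℕ) = E at hid ⊢
  have h2 : ‖(Fintype.card A : ℂ) * E‖ = (Fintype.card A : ℝ) * E := by
    rw [norm_mul, Complex.norm_natCast, Complex.norm_natCast]
  rw [← h2, ← hid]
  refine (norm_sum_le _ _).trans (Finset.sum_le_sum fun χ _ => ?_)
  rw [norm_mul]
  refine mul_le_mul_of_nonneg_left ?_ (norm_nonneg _)
  refine (norm_sum_le _ _).trans (Finset.sum_le_sum fun j _ => ?_)
  rw [norm_mul]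
  apply le_of_eq
  congr 1
  have h3 : ∑ z ∈ T' j, χ (-z) = (starRingEnd ℂ) (∑ z ∈ T' j, χ z) := by
    rw [map_sum]
    exact Finset.sum_congr rfl fun z _ => AddChar.map_neg_eq_conj χ z
  rw [h3, Complex.norm_conj]

omit [Fintype A] in
theorem mixl_term {n Δ : ℕ} (u : Fin n → A) (g : Fin n → Fin Δ → A) {lam : ℝ} (hlam : 0 ≤ lam)
    (T : Finset A) (T' : Fin n → Finset A) (hT' : ∀ j, ∀ a ∈ T' j, a + u j ∈ T' j)
    (χ : AddChar A ℂ)
    (h : ∑ j, (open Classical in if χ (u j) = 1 then ‖∑ s, χ (g j s)‖ ^ 2 else 0) ≤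
        lam ^ 2 * (n * Δ ^ 2)) :
    ‖∑ x ∈ T, χ x‖ * ∑ j, (‖∑ s, χ (g j s)‖ * ‖∑ z ∈ T' j, χ z‖) ≤
      lam * Δ / 2 * (n * ‖∑ x ∈ T, χ x‖ ^ 2 + ∑ j, ‖∑ z ∈ T' j, χ z‖ ^ 2) := by
  classical
  have hS0 : 0 ≤ ∑ j, ‖∑ z ∈ T' j, χ z‖ ^ 2 := Finset.sum_nonneg fun j _ => sq_nonneg _
  have h4 : ∀ j, ‖∑ s, χ (g j s)‖ * ‖∑ z ∈ T' j, χ z‖ =
      (if χ (u j) = 1 then ‖∑ s, χ (g j s)‖ else 0) * ‖∑ z ∈ T' j, χ z‖ := by
    intro j
    split_ifs with hu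
    · rfl
    · rw [mixl_zero (T' j) (u j) (hT' j) χ hu, norm_zero, mul_zero, mul_zero]
  have h5 : (∑ j, (‖∑ s, χ (g j s)‖ * ‖∑ z ∈ T' j, χ z‖)) ^ 2 ≤
      (lam ^ 2 * (n * Δ ^ 2)) * ∑ j, ‖∑ z ∈ T' j, χ z‖ ^ 2 := by
    simp only [h4]
    refine (Finset.sum_mul_sq_le_sq_mul_sq _ _ _).trans ?_
    refine mul_le_mul_of_nonneg_right ?_ hS0
    refine le_trans (le_of_eq ?_) h
    refine Finset.sum_congr rfl fun j _ => ?_
    split_ifs with hu
    · rfl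
    · simp
  exact mixl_num hlam (Nat.cast_nonneg _) (Nat.cast_nonneg _) hS0 h5

omit [Fintype A] in
theorem mixl_triv {n Δ : ℕ} (g : Fin n → Fin Δ → A) (T : Finset A) (T' : Fin n → Finset A) :
    ‖∑ x ∈ T, (0 : AddChar A ℂ) x‖ *
      ∑ j, (‖∑ s, (0 : AddChar A ℂ) (g j s)‖ * ‖∑ z ∈ T' j, (0 : AddChar A ℂ) z‖) =
      (Δ : ℝ) * T.card * (∑ j, ((T' j).card : ℝ)) := by
  have e0 : ∀ S : Finset A, ‖∑ x ∈ S, (0 : AddChar A ℂ) x‖ = S.card := by
    intro S; simp [AddChar.zero_apply]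
  have e3 : ∀ j, ‖∑ s, (0 : AddChar A ℂ) (g j s)‖ = Δ := by
    intro j; simp [AddChar.zero_apply]
  simp only [e0, e3]
  rw [← Finset.mul_sum]
  ring

theorem mixl_parseval {n : ℕ} (T : Finset A) (T' : Fin n → Finset A) (c : ℝ) :
    ∑ χ : AddChar A ℂ, c * (n * ‖∑ x ∈ T, χ x‖ ^ 2 + ∑ j, ‖∑ z ∈ T' j, χ z‖ ^ 2) =
      c * (n * (Fintype.card A * T.card) + Fintype.card A * ∑ j, ((T' j).card : ℝ)) := by
  rw [← Finset.mul_sum, Finset.sum_add_distrib, ← Finset.mul_sum, Finset.sum_comm,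
    Free.parseval T, Finset.mul_sum]
  have : ∀ j, ∑ χ : AddChar A ℂ, ‖∑ z ∈ T' j, χ z‖ ^ 2 = Fintype.card A * ((T' j).card : ℝ) :=
    fun j => Free.parseval (T' j)
  simp only [this]

theorem mixing_lines {A : Type*} [AddCommGroup A] [Fintype A] [DecidableEq A] {n Δ : ℕ}
    (hn : 1 ≤ n) (u : Fin n → A) (g : Fin n → Fin Δ → A) {lam : ℝ} (hlam : 0 ≤ lam)
    (h : ∀ χ : AddChar A ℂ, χ ≠ 0 →
      ∑ j, (open Classical in if χ (u j) = 1 then ‖∑ s, χ (g j s)‖ ^ 2 else 0) ≤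
        lam ^ 2 * (n * Δ ^ 2))
    (T : Finset A) (T' : Fin n → Finset A) (hT' : ∀ j, ∀ a ∈ T' j, a + u j ∈ T' j) :
    ∑ j, ∑ s, ((T.filter fun a => a + g j s ∈ T' j).card : ℝ) ≤
      Δ * T.card * (∑ j, ((T' j).card : ℝ)) / Fintype.card A +
        lam * Δ / 2 * (n * T.card + ∑ j, ((T' j).card : ℝ)) := by
  classical
  have _ := hn
  have hA : (0 : ℝ) < Fintype.card A := by exact_mod_cast Fintype.card_pos
  have h1 := mixl_norm g T T'
  have hEr : ∑ j, ∑ s, ((T.filter fun a => a + g j s ∈ T' j).card : ℝ) =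
      ((∑ j, ∑ s, (T.filter fun a => a + g j s ∈ T' j).card : ℕ) : ℝ) := by
    push_cast; rfl
  rw [hEr]
  generalize (∑ j, ∑ s, (T.filter fun a => a + g j s ∈ T' j).card : ℕ) = E at h1 ⊢
  have h2 : ∀ χ : AddChar A ℂ, ‖∑ x ∈ T, χ x‖ *
      ∑ j, (‖∑ s, χ (g j s)‖ * ‖∑ z ∈ T' j, χ z‖) ≤
      (if χ = 0 then (Δ : ℝ) * T.card * (∑ j, ((T' j).card : ℝ)) else 0) +
        lam * Δ / 2 * (n * ‖∑ x ∈ T, χ x‖ ^ 2 + ∑ j, ‖∑ z ∈ T' j, χ z‖ ^ 2) := by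
    intro χ
    by_cases hχ : χ = 0
    · subst hχ
      rw [if_pos rfl, mixl_triv]
      have : 0 ≤ lam * Δ / 2 * (n * ‖∑ x ∈ T, (0 : AddChar A ℂ) x‖ ^ 2 +
          ∑ j, ‖∑ z ∈ T' j, (0 : AddChar A ℂ) z‖ ^ 2) := by positivity
      linarith
    · rw [if_neg hχ, zero_add]
      exact mixl_term u g hlam T T' hT' χ (h χ hχ)
  have h3 := h1.trans (Finset.sum_le_sum fun χ _ => h2 χ)
  rw [Finset.sum_add_distrib, Finset.sum_ite_eq' univ (0 : AddChar A ℂ), if_pos (mem_univ _),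
    mixl_parseval] at h3
  generalize (∑ j, ((T' j).card : ℝ)) = S at h3 ⊢
  have h5 : (E : ℝ) ≤ (Δ * T.card * S + lam * Δ / 2 *
      (n * (Fintype.card A * T.card) + Fintype.card A * S)) / Fintype.card A := by
    rw [le_div_iff₀ hA]
    linarith
  refine h5.trans (le_of_eq ?_)
  field_simp

end mixlines

end Pool.Agent.Lib.MP_0430e4_lc.Free2
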