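import Mathlib
import Pool.Agent.Lib.MP_0430e4_lc.Free2.R0

/-!
# The rank threshold for free abelian symmetries of good codes (helper91): words of small weight
-/

namespace Pool.Agent.Lib.MP_0430e4_lc.Free2

open Finset Module

/-- number of words of small weight -/
theorem low_card_aux (M : ℕ) : (low M).card * 64 ^ (M - M / 200) ≤ 65 ^ M := by
  classical
  have h1 : ∑ w : Fin M → ZMod 2, ∏ i, (if w i = 0 then 64 else 1 : ℕ) = 65 ^ M := by
    have h2 := Finset.prod_univ_sum (fun _ : Fin M => (univ : Finset (ZMod 2)))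
      (fun _ a => (if a = 0 then 64 else 1 : ℕ))
    rw [Fintype.piFinset_univ] at h2
    rw [← h2]
    rw [Finset.prod_const, card_univ, Fintype.card_fin]
    rfl
  have h2 : ∀ w : Fin M → ZMod 2, ∏ i, (if w i = 0 then 64 else 1 : ℕ) =
      64 ^ (M - hammingNorm w) := by
    intro w
    rw [Finset.prod_ite, Finset.prod_const, Finset.prod_const_one, mul_one]
    congr 1
    have h3 := Finset.card_filter_add_card_filter_not (s := (univ : Finset (Fin M))) (fun i => w i = 0)
    rw [card_univ, Fintype.card_fin] at h3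
    have h4 : hammingNorm w = (univ.filter fun i => ¬ w i = 0).card := rfl
    omega
  rw [← h1, ← smul_eq_mul, ← Finset.sum_const]
  calc ∑ _w ∈ low M, 64 ^ (M - M / 200)
      ≤ ∑ w ∈ low M, ∏ i, (if w i = 0 then 64 else 1 : ℕ) := by
        apply Finset.sum_le_sum
        intro w hw
        rw [h2]
        have h3 := (mem_filter.1 hw).2
        apply Nat.pow_le_pow_right (by norm_num)
        omega
    _ ≤ _ := Finset.sum_le_sum_of_subset (filter_subset _ _)

theorem low_card (M : ℕ) : (low M).card ^ 16 ≤ 2 ^ M := by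
  have h1 := low_card_aux M
  set N := (low M).card with hN
  have h2 : (65 : ℕ) ^ 100 ≤ 64 ^ 100 * 2 ^ 3 := by norm_num
  have h3 : M / 200 * 200 ≤ M := Nat.div_mul_le_self M 200
  have h4 : N ^ 100 * 64 ^ (100 * (M - M / 200)) ≤ 64 ^ (100 * M) * 2 ^ (3 * M) := by
    calc N ^ 100 * 64 ^ (100 * (M - M / 200)) = (N * 64 ^ (M - M / 200)) ^ 100 := by
          rw [mul_pow, ← pow_mul, mul_comm 100]
      _ ≤ (65 ^ M) ^ 100 := Nat.pow_le_pow_left h1 _
      _ = (65 ^ 100) ^ M := by rw [← pow_mul, ← pow_mul, mul_comm]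
      _ ≤ (64 ^ 100 * 2 ^ 3) ^ M := Nat.pow_le_pow_left h2 _
      _ = _ := by rw [mul_pow, ← pow_mul, ← pow_mul]
  have h5 : N ^ 100 ≤ 2 ^ (6 * M) := by
    have h6 : 64 ^ (100 * M) = 64 ^ (100 * (M / 200)) * 64 ^ (100 * (M - M / 200)) := by
      rw [← pow_add]
      congr 1
      omega
    rw [h6] at h4
    have h7 : N ^ 100 * 64 ^ (100 * (M - M / 200)) ≤
        (64 ^ (100 * (M / 200)) * 2 ^ (3 * M)) * 64 ^ (100 * (M - M / 200)) := by
      calc _ ≤ _ := h4
        _ = _ := by ring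
    have h8 := Nat.le_of_mul_le_mul_right h7 (by positivity)
    refine h8.trans ?_
    have h9 : (64 : ℕ) ^ (100 * (M / 200)) ≤ 2 ^ (3 * M) := by
      rw [show (64 : ℕ) = 2 ^ 6 by norm_num, ← pow_mul]
      apply Nat.pow_le_pow_right (by norm_num)
      omega
    calc 64 ^ (100 * (M / 200)) * 2 ^ (3 * M) ≤ 2 ^ (3 * M) * 2 ^ (3 * M) :=
          Nat.mul_le_mul_right _ h9
      _ = 2 ^ (6 * M) := by rw [← pow_add]; congr 1; ring
  have h6 : (N ^ 16) ^ 25 ≤ (2 ^ M) ^ 25 := by
    calc (N ^ 16) ^ 25 = (N ^ 100) ^ 4 := by rw [← pow_mul, ← pow_mul]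
      _ ≤ (2 ^ (6 * M)) ^ 4 := Nat.pow_le_pow_left h5 _
      _ = 2 ^ (24 * M) := by rw [← pow_mul]; congr 1; ring
      _ ≤ 2 ^ (M * 25) := Nat.pow_le_pow_right (by norm_num) (by omega)
      _ = _ := by rw [← pow_mul]
  exact (Nat.pow_le_pow_iff_left (by norm_num)).1 h6

end Pool.Agent.Lib.MP_0430e4_lc.Free2
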