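import Mathlib

/-!
# The rank threshold for free abelian symmetries of good codes (helper91): Cayley–Hamilton
-/

namespace Pool.Agent.Lib.MP_0430e4_lc.Free2

open Finset Module Polynomial

theorem exists_rec {V : Type*} [AddCommGroup V] [Module (ZMod 2) V] [FiniteDimensional (ZMod 2) V]
    (σ : V →ₗ[ZMod 2] V) (W : Submodule (ZMod 2) V) (hW : ∀ w ∈ W, σ w ∈ W) (w : V) (hw : w ∈ W) :
    ∃ c : Fin (finrank (ZMod 2) W) → ZMod 2,
      (σ ^ (finrank (ZMod 2) W)) w = ∑ i, c i • (σ ^ (i : ℕ)) w := by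
  classical
  let τ : W →ₗ[ZMod 2] W := σ.restrict hW
  set k := finrank (ZMod 2) W with hk
  have h1 : (aeval τ τ.charpoly) = 0 := LinearMap.aeval_self_charpoly τ
  have hdeg : τ.charpoly.natDegree = k := LinearMap.charpoly_natDegree τ
  have hmonic : τ.charpoly.Monic := LinearMap.charpoly_monic τ
  have hτ : ∀ (i : ℕ) (x : W), ((τ ^ i) x : V) = (σ ^ i) (x : V) := by
    intro i
    induction i with
    | zero => intro x; rfl
    | succ i ih =>
      intro x
      rw [pow_succ, pow_succ, Module.End.mul_apply, Module.End.mul_apply, ih]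
      rfl
  have h2 : ∑ i ∈ range (k + 1), τ.charpoly.coeff i • (σ ^ i) w = 0 := by
    have h3 := congrArg (fun φ : W →ₗ[ZMod 2] W => ((φ ⟨w, hw⟩ : W) : V)) h1
    simp only [LinearMap.zero_apply, ZeroMemClass.coe_zero] at h3
    rw [aeval_eq_sum_range, hdeg] at h3
    rw [← h3]
    simp only [LinearMap.sum_apply, LinearMap.smul_apply, AddSubmonoidClass.coe_finsetSum,
      SetLike.val_smul]
    apply Finset.sum_congr rfl
    intro i _
    rw [hτ i ⟨w, hw⟩]
  rw [Finset.sum_range_succ] at h2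
  have h3 : τ.charpoly.coeff k = 1 := by
    rw [← hdeg]
    exact hmonic
  rw [h3, one_smul] at h2
  refine ⟨fun i => τ.charpoly.coeff i, ?_⟩
  rw [Finset.sum_range (fun i => τ.charpoly.coeff i • (σ ^ i) w)] at h2
  have h4 : (σ ^ k) w = -∑ i : Fin k, τ.charpoly.coeff i • (σ ^ (i : ℕ)) w := by
    rw [eq_neg_iff_add_eq_zero, add_comm]
    exact h2
  rw [h4]
  have h5 : ∀ v : V, -v = v := by
    intro v
    have h6 : (2 : ZMod 2) • v = 0 := by
      have : (2 : ZMod 2) = 0 := rfl
      rw [this, zero_smul]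
    rw [two_smul] at h6
    exact neg_eq_of_add_eq_zero_left h6
  exact h5 _

end Pool.Agent.Lib.MP_0430e4_lc.Free2
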