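import Mathlib
import Pool.Agent.Lib.MP_0430e4_lc.Free2.R0

/-!
# The rank threshold for free abelian symmetries of good codes (helper91): windows of linear
recurrences
-/

namespace Pool.Agent.Lib.MP_0430e4_lc.Free2

open Finset Module
open Pool.Agent.Lib.MP_0430e4_lc.Free (wt)

/-- the window of length `k` at `x` -/
def window {m Δ : ℕ} (k : ℕ) (w : ZMod m → Fin Δ → ZMod 2) (x : ZMod m) :
    Fin (k * Δ) → ZMod 2 :=
  fun p => w (x + ((finProdFinEquiv.symm p).1 : ℕ)) (finProdFinEquiv.symm p).2

theorem norm_window {m Δ : ℕ} (k : ℕ) (w : ZMod m → Fin Δ → ZMod 2) (x : ZMod m) :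
    hammingNorm (window k w x) = ∑ i : Fin k, hammingNorm (w (x + (i : ℕ))) := by
  classical
  have h1 : hammingNorm (window k w x) =
      (univ.filter fun p : Fin k × Fin Δ => w (x + (p.1 : ℕ)) p.2 ≠ 0).card := by
    unfold hammingNorm
    apply Finset.card_bij (fun p _ => finProdFinEquiv.symm p)
    · intro p hp
      rw [mem_filter] at hp ⊢
      exact ⟨mem_univ _, hp.2⟩
    · intro p _ q _ h
      exact finProdFinEquiv.symm.injective h
    · intro q hq
      rw [mem_filter] at hq
      refine ⟨finProdFinEquiv q, ?_, Equiv.symm_apply_apply _ _⟩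
      rw [mem_filter]
      refine ⟨mem_univ _, ?_⟩
      show w (x + ((finProdFinEquiv.symm (finProdFinEquiv q)).1 : ℕ))
        (finProdFinEquiv.symm (finProdFinEquiv q)).2 ≠ 0
      rw [Equiv.symm_apply_apply]
      exact hq.2
  rw [h1, Finset.card_eq_sum_card_fiberwise (f := Prod.fst) (t := univ)
    (fun _ _ => mem_coe.2 (mem_univ _))]
  apply Finset.sum_congr rfl
  intro i _
  unfold hammingNorm
  refine Finset.card_bij' (fun q _ => q.2) (fun s _ => (i, s)) ?_ ?_ ?_ ?_
  · intro q hq
    simp only [mem_filter, mem_univ, true_and] at hq ⊢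
    rw [← hq.2]
    exact hq.1
  · intro s hs
    simp only [mem_filter, mem_univ, true_and] at hs ⊢
    exact ⟨hs, trivial⟩
  · intro q hq
    simp only [mem_filter, mem_univ, true_and] at hq
    rw [← hq.2]
  · intro s _
    rfl

theorem sum_norm_window {m Δ : ℕ} [NeZero m] (k : ℕ) (w : ZMod m → Fin Δ → ZMod 2) :
    ∑ x, hammingNorm (window k w x) = k * wt w := by
  classical
  simp only [norm_window]
  rw [Finset.sum_comm]
  have h1 : ∀ i : Fin k, ∑ x : ZMod m, hammingNorm (w (x + (i : ℕ))) = wt w := by
    intro i
    have h2 : wt w = ∑ x, hammingNorm (w x) := wtI_eq_sum w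
    rw [h2]
    exact Fintype.sum_equiv (Equiv.addRight ((i : ℕ) : ZMod m)) _ _ (fun x => rfl)
  rw [Finset.sum_congr rfl (fun i _ => h1 i), Finset.sum_const, card_univ, Fintype.card_fin,
    smul_eq_mul]

theorem window_injOn {m Δ k : ℕ} [NeZero m] (c : Fin k → ZMod 2) (x : ZMod m)
    {w w' : ZMod m → Fin Δ → ZMod 2} (hw : ∀ x : ZMod m, w (x + k) = ∑ i, c i • w (x + (i : ℕ)))
    (hw' : ∀ x : ZMod m, w' (x + k) = ∑ i, c i • w' (x + (i : ℕ)))
    (h : window k w x = window k w' x) : w = w' := by
  have h1 : ∀ i : ℕ, w (x + i) = w' (x + i) := by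
    intro i
    induction i using Nat.strong_induction_on with
    | _ i ih =>
      rcases Nat.lt_or_ge i k with hi | hi
      · funext s
        have h2 := congrFun h (finProdFinEquiv (⟨i, hi⟩, s))
        unfold window at h2
        rw [Equiv.symm_apply_apply] at h2
        exact h2
      · have h2 : (x + (i : ℕ) : ZMod m) = (x + ((i - k : ℕ) : ZMod m)) + k := by
          rw [add_assoc, ← Nat.cast_add, Nat.sub_add_cancel hi]
        rw [h2, hw, hw']
        apply Finset.sum_congr rfl
        intro j _
        have h3 : (x + ((i - k : ℕ) : ZMod m)) + ((j : ℕ) : ZMod m) =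
            x + ((i - k + j : ℕ) : ZMod m) := by
          rw [add_assoc, ← Nat.cast_add]
        rw [h3, ih (i - k + j) (by have := j.2; omega)]
  funext y
  have h2 := h1 (y - x).val
  rw [ZMod.natCast_zmod_val, add_sub_cancel] at h2
  exact h2

theorem windows {m Δ k : ℕ} [NeZero m] (c : Fin k → ZMod 2)
    (S : Finset (ZMod m → Fin Δ → ZMod 2))
    (hS : ∀ w ∈ S, 400 * wt w < m * Δ ∧ ∀ x : ZMod m, w (x + k) = ∑ i, c i • w (x + (i : ℕ))) :
    S.card ≤ 2 * (low (k * Δ)).card := by
  classical
  have hm : 0 < m := Nat.pos_of_ne_zero (NeZero.ne m)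
  -- many windows are low
  have h1 : ∀ w ∈ S, m ≤ 2 * (univ.filter fun x : ZMod m => window k w x ∈ low (k * Δ)).card := by
    intro w hw
    have h2 := (hS w hw).1
    have h3 := sum_norm_window k w
    set g := (univ.filter fun x : ZMod m => window k w x ∈ low (k * Δ)).card with hg
    have h4 : g + (univ.filter fun x : ZMod m => ¬ window k w x ∈ low (k * Δ)).card = m := by
      rw [hg, Finset.card_filter_add_card_filter_not, card_univ, ZMod.card]
    set b := (univ.filter fun x : ZMod m => ¬ window k w x ∈ low (k * Δ)).card with hb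
    have h5 : b * (k * Δ) ≤ 200 * (k * wt w) := by
      rw [← h3, Finset.mul_sum, hb, ← smul_eq_mul, ← Finset.sum_const]
      calc ∑ _x ∈ univ.filter (fun x : ZMod m => ¬ window k w x ∈ low (k * Δ)), k * Δ ≤
          ∑ x ∈ univ.filter (fun x : ZMod m => ¬ window k w x ∈ low (k * Δ)),
            200 * hammingNorm (window k w x) := by
            apply Finset.sum_le_sum
            intro x hx
            have h6 := (mem_filter.1 hx).2
            unfold low at h6
            rw [mem_filter] at h6
            push Not at h6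
            exact (h6 (mem_univ _)).le
        _ ≤ _ := Finset.sum_le_sum_of_subset (filter_subset _ _)
    rcases Nat.eq_zero_or_pos k with hk | hk
    · subst hk
      have h6 : g = m := by
        rw [hg]
        have : (univ.filter fun x : ZMod m => window 0 w x ∈ low (0 * Δ)) = univ := by
          ext x
          simp only [mem_filter, mem_univ, true_and, iff_true]
          unfold low
          rw [mem_filter]
          refine ⟨mem_univ _, ?_⟩
          rw [norm_window]
          simp
        rw [this, card_univ, ZMod.card]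
      omega
    · by_contra hcon
      push Not at hcon
      have h6 : m ≤ 2 * b := by omega
      have h7 : m * (k * Δ) ≤ 400 * (k * wt w) := by
        calc m * (k * Δ) ≤ 2 * b * (k * Δ) := Nat.mul_le_mul_right _ h6
          _ = 2 * (b * (k * Δ)) := by ring
          _ ≤ 2 * (200 * (k * wt w)) := Nat.mul_le_mul_left _ h5
          _ = _ := by ring
      have h8 : k * (400 * wt w) < k * (m * Δ) := Nat.mul_lt_mul_of_pos_left h2 hk
      have h9 : m * (k * Δ) = k * (m * Δ) := by ring
      have h10 : 400 * (k * wt w) = k * (400 * wt w) := by ring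
      omega
  have h2 : ∀ x : ZMod m, (S.filter fun w => window k w x ∈ low (k * Δ)).card ≤
      (low (k * Δ)).card := by
    intro x
    apply Finset.card_le_card_of_injOn (fun w => window k w x)
    · intro w hw
      exact (mem_filter.1 hw).2
    · intro w hw w' hw' h
      exact window_injOn c x (hS w (mem_filter.1 hw).1).2 (hS w' (mem_filter.1 hw').1).2 h
  have h3 : S.card * m ≤ 2 * (m * (low (k * Δ)).card) := by
    calc S.card * m = ∑ _w ∈ S, m := by rw [Finset.sum_const, smul_eq_mul]
      _ ≤ ∑ w ∈ S, 2 * (univ.filter fun x : ZMod m => window k w x ∈ low (k * Δ)).card :=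
          Finset.sum_le_sum h1
      _ = 2 * ∑ w ∈ S, (univ.filter fun x : ZMod m => window k w x ∈ low (k * Δ)).card := by
          rw [Finset.mul_sum]
      _ = 2 * ∑ x : ZMod m, (S.filter fun w => window k w x ∈ low (k * Δ)).card := by
          congr 1
          simp only [Finset.card_filter]
          rw [Finset.sum_comm]
      _ ≤ 2 * ∑ _x : ZMod m, (low (k * Δ)).card :=
          Nat.mul_le_mul_left _ (Finset.sum_le_sum fun x _ => h2 x)
      _ = _ := by rw [Finset.sum_const, card_univ, ZMod.card, smul_eq_mul]
  have h4 : m * S.card ≤ m * (2 * (low (k * Δ)).card) := by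
    calc m * S.card = S.card * m := mul_comm _ _
      _ ≤ _ := h3
      _ = _ := by ring
  exact Nat.le_of_mul_le_mul_left h4 hm

end Pool.Agent.Lib.MP_0430e4_lc.Free2
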