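import Mathlib
import Pool.Agent.Lib.MP_0430e4_lc.Free2.R0

/-!
# The rank threshold, U4a (helper85): the span of the shifts and the checks which kill a word
-/

namespace Pool.Agent.Lib.MP_0430e4_lc.Free2

open Finset Module

/-- the shift-span -/
def orbSpan {m Δ : ℕ} (w : ZMod m → Fin Δ → ZMod 2) : Submodule (ZMod 2) (ZMod m → Fin Δ → ZMod 2) :=
  Submodule.span (ZMod 2) (Set.range fun y : ZMod m => fun x => w (x + y))

/-- the check with coefficients `p` -/
def check {m Δ : ℕ} [NeZero m] (p : ZMod m → Fin Δ → ZMod 2) :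
    (ZMod m → Fin Δ → ZMod 2) →ₗ[ZMod 2] (ZMod m → ZMod 2) where
  toFun w := fun x => ∑ y, ∑ i, p y i * w (x + y) i
  map_add' w w' := by
    funext x
    simp only [Pi.add_apply, mul_add, Finset.sum_add_distrib]
  map_smul' c w := by
    funext x
    simp only [Pi.smul_apply, smul_eq_mul, RingHom.id_apply, Finset.mul_sum]
    refine Finset.sum_congr rfl fun y _ => Finset.sum_congr rfl fun i _ => by ring

theorem check_apply {m Δ : ℕ} [NeZero m] (p w : ZMod m → Fin Δ → ZMod 2) (x : ZMod m) :
    check p w x = ∑ y, ∑ i, p y i * w (x + y) i := rfl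

/-- the number of checks which kill `w` -/
theorem card_check {m Δ : ℕ} [NeZero m] (w : ZMod m → Fin Δ → ZMod 2) :
    (univ.filter fun p : ZMod m → Fin Δ → ZMod 2 => check p w = 0).card *
      2 ^ (finrank (ZMod 2) (orbSpan w)) = 2 ^ (m * Δ) := by
  classical
  let M : Matrix (ZMod m) (ZMod m × Fin Δ) (ZMod 2) := Matrix.of fun x q => w (x + q.1) q.2
  let E : (ZMod m × Fin Δ → ZMod 2) ≃ₗ[ZMod 2] (ZMod m → Fin Δ → ZMod 2) :=
    LinearEquiv.curry (ZMod 2) (ZMod 2) (ZMod m) (Fin Δ)
  have h1 : orbSpan w = (Submodule.span (ZMod 2) (Set.range M.row)).map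
      (E : (ZMod m × Fin Δ → ZMod 2) →ₗ[ZMod 2] (ZMod m → Fin Δ → ZMod 2)) := by
    rw [Submodule.map_span, ← Set.range_comp]
    unfold orbSpan
    congr 2
    funext y x i
    show w (x + y) i = w (y + x) i
    rw [add_comm]
  have h2 : finrank (ZMod 2) (orbSpan w) = M.rank := by
    rw [h1, LinearEquiv.finrank_map_eq, Matrix.rank_eq_finrank_span_row]
  have h3 : (univ.filter fun p : ZMod m → Fin Δ → ZMod 2 => check p w = 0).card =
      2 ^ finrank (ZMod 2) (LinearMap.ker M.mulVecLin) := by
    have h4 : Fintype.card (LinearMap.ker M.mulVecLin) =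
        2 ^ finrank (ZMod 2) (LinearMap.ker M.mulVecLin) := by
      rw [Module.card_eq_pow_finrank (K := ZMod 2) (V := LinearMap.ker M.mulVecLin), ZMod.card]
    rw [← h4, ← Fintype.card_coe]
    refine Fintype.card_congr ⟨fun p => ⟨E.symm p.1, ?_⟩, fun q => ⟨E q.1, ?_⟩, ?_, ?_⟩
    · have hp := (mem_filter.1 p.2).2
      rw [LinearMap.mem_ker]
      funext x
      have h5 := congrFun hp x
      rw [check_apply] at h5
      rw [Matrix.mulVecLin_apply, Matrix.mulVec, dotProduct, Fintype.sum_prod_type]
      rw [← h5]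
      refine Finset.sum_congr rfl fun y _ => Finset.sum_congr rfl fun i _ => ?_
      show w (x + y) i * p.1 y i = _
      ring
    · rw [mem_filter]
      refine ⟨mem_univ _, ?_⟩
      funext x
      have hq := LinearMap.mem_ker.1 q.2
      have h5 := congrFun hq x
      rw [Matrix.mulVecLin_apply, Matrix.mulVec, dotProduct, Fintype.sum_prod_type] at h5
      rw [check_apply, ← h5]
      refine Finset.sum_congr rfl fun y _ => Finset.sum_congr rfl fun i _ => ?_
      show q.1 (y, i) * w (x + y) i = w (x + y) i * q.1 (y, i)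
      ring
    · intro p
      apply Subtype.ext
      exact E.apply_symm_apply p.1
    · intro q
      apply Subtype.ext
      exact E.symm_apply_apply q.1
  rw [h3, h2, ← pow_add, Matrix.rank, add_comm, LinearMap.finrank_range_add_finrank_ker]
  simp [Fintype.card_prod, ZMod.card]

end Pool.Agent.Lib.MP_0430e4_lc.Free2
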