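import Mathlib
import Pool.Agent.Lib.MP_0430e4_lc.Free2.R0
import Pool.Agent.Lib.MP_0430e4_lc.Free2.U1
import Pool.Agent.Lib.MP_0430e4_lc.Free2.U2
import Pool.Agent.Lib.MP_0430e4_lc.Free2.U3
import Pool.Agent.Lib.MP_0430e4_lc.Free2.U4a

/-!
# The rank threshold for free abelian symmetries of good codes (helper91): words of small weight
with a small orbit span
-/

namespace Pool.Agent.Lib.MP_0430e4_lc.Free2

open Finset Module
open Pool.Agent.Lib.MP_0430e4_lc.Free (wt)

/-- the shift by one -/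
def shiftOne (m Δ : ℕ) : (ZMod m → Fin Δ → ZMod 2) →ₗ[ZMod 2] (ZMod m → Fin Δ → ZMod 2) where
  toFun w := fun x => w (x + 1)
  map_add' _ _ := rfl
  map_smul' _ _ := rfl

theorem shiftOne_pow {m Δ : ℕ} (i : ℕ) (w : ZMod m → Fin Δ → ZMod 2) (x : ZMod m) :
    ((shiftOne m Δ) ^ i) w x = w (x + i) := by
  induction i generalizing w x with
  | zero => simp
  | succ i ih =>
    rw [pow_succ, Module.End.mul_apply, ih]
    show w (x + i + 1) = _
    rw [add_assoc, ← Nat.cast_succ]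

theorem shiftOne_orbSpan {m Δ : ℕ} {w : ZMod m → Fin Δ → ZMod 2} :
    ∀ v ∈ orbSpan w, shiftOne m Δ v ∈ orbSpan w := by
  intro v hv
  have h1 : orbSpan w ≤ (orbSpan w).comap (shiftOne m Δ) := by
    rw [orbSpan, Submodule.span_le]
    rintro _ ⟨y, rfl⟩
    apply Submodule.subset_span
    refine ⟨1 + y, ?_⟩
    funext x
    show w (x + (1 + y)) = w (x + 1 + y)
    rw [add_assoc]
  exact h1 hv

theorem mem_orbSpan {m Δ : ℕ} (w : ZMod m → Fin Δ → ZMod 2) : w ∈ orbSpan w := by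
  apply Submodule.subset_span
  refine ⟨0, ?_⟩
  funext x
  show w (x + 0) = w x
  rw [add_zero]

theorem orbSpan_rec {m Δ k : ℕ} [NeZero m] {w : ZMod m → Fin Δ → ZMod 2}
    (hk : finrank (ZMod 2) (orbSpan w) = k) :
    ∃ c : Fin k → ZMod 2, ∀ x : ZMod m, w (x + k) = ∑ i, c i • w (x + (i : ℕ)) := by
  subst hk
  obtain ⟨c, hc⟩ := exists_rec (shiftOne m Δ) (orbSpan w) shiftOne_orbSpan w (mem_orbSpan w)
  refine ⟨c, fun x => ?_⟩
  have h1 := congrFun hc x
  rw [shiftOne_pow, Finset.sum_apply] at h1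
  rw [h1]
  apply Finset.sum_congr rfl
  intro i _
  rw [Pi.smul_apply, shiftOne_pow]

theorem card_low_dim (m q k : ℕ) [NeZero m] :
    (univ.filter fun w : ZMod m → Fin (16 * q) → ZMod 2 => 400 * wt w < m * (16 * q) ∧
      finrank (ZMod 2) (orbSpan w) = k).card ≤ 2 * 2 ^ (k + k * q) := by
  classical
  let Sc : (Fin k → ZMod 2) → Finset (ZMod m → Fin (16 * q) → ZMod 2) := fun c =>
    univ.filter fun w => 400 * wt w < m * (16 * q) ∧
      ∀ x : ZMod m, w (x + k) = ∑ i, c i • w (x + (i : ℕ))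
  have h1 : (univ.filter fun w : ZMod m → Fin (16 * q) → ZMod 2 => 400 * wt w < m * (16 * q) ∧
      finrank (ZMod 2) (orbSpan w) = k) ⊆ univ.biUnion Sc := by
    intro w hw
    obtain ⟨h2, h3⟩ := (mem_filter.1 hw).2
    obtain ⟨c, hc⟩ := orbSpan_rec h3
    rw [mem_biUnion]
    exact ⟨c, mem_univ _, mem_filter.2 ⟨mem_univ _, h2, hc⟩⟩
  have h2 : (low (k * (16 * q))).card ≤ 2 ^ (k * q) := by
    have h3 := low_card (k * (16 * q))
    have h4 : (2 : ℕ) ^ (k * (16 * q)) = (2 ^ (k * q)) ^ 16 := by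
      rw [← pow_mul]
      congr 1
      ring
    rw [h4] at h3
    exact (Nat.pow_le_pow_iff_left (by norm_num)).1 h3
  calc _ ≤ (univ.biUnion Sc).card := card_le_card h1
    _ ≤ ∑ c, (Sc c).card := card_biUnion_le
    _ ≤ ∑ _c : Fin k → ZMod 2, 2 * (low (k * (16 * q))).card := by
        apply Finset.sum_le_sum
        intro c _
        exact windows c (Sc c) (fun w hw => (mem_filter.1 hw).2)
    _ ≤ ∑ _c : Fin k → ZMod 2, 2 * 2 ^ (k * q) :=
        Finset.sum_le_sum fun _ _ => Nat.mul_le_mul_left _ h2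
    _ = _ := by
        rw [Finset.sum_const, card_univ, Fintype.card_fun, Fintype.card_fin, ZMod.card, smul_eq_mul,
          pow_add]
        ring

end Pool.Agent.Lib.MP_0430e4_lc.Free2
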