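import Mathlib
import Pool.Agent.Lib.MP_0430e4_lc.Free2.R0
import Pool.Agent.Lib.MP_0430e4_lc.Free2.U4a
import Pool.Agent.Lib.MP_0430e4_lc.Free2.U4b

/-!
# The rank threshold for free abelian symmetries of good codes (helper50): random checks
-/

namespace Pool.Agent.Lib.MP_0430e4_lc.Free2

open Finset Module
open Pool.Agent.Lib.MP_0430e4_lc.Free (wt Inv Good)

theorem sum_quarter (n : ℕ) : ∑ k ∈ Finset.Icc 1 n, (1 / 4 : ℝ) ^ k ≤ 1 / 3 := by
  have h : ∑ k ∈ Finset.Icc 1 n, (1 / 4 : ℝ) ^ k = (1 - (1 / 4) ^ n) / 3 := by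
    induction n with
    | zero => simp
    | succ n ih =>
      rw [Finset.sum_Icc_succ_top (by omega), ih, pow_succ]
      ring
  rw [h]
  have : (0 : ℝ) ≤ (1 / 4) ^ n := by positivity
  linarith

theorem one_le_finrank_orbSpan {m Δ : ℕ} [NeZero m] {w : ZMod m → Fin Δ → ZMod 2} (hw : w ≠ 0) :
    1 ≤ finrank (ZMod 2) (orbSpan w) := by
  rw [Nat.one_le_iff_ne_zero]
  intro h
  rw [Submodule.finrank_eq_zero] at h
  have h1 : w ∈ orbSpan w := by
    apply Submodule.subset_span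
    refine ⟨0, ?_⟩
    funext x
    simp
  rw [h, Submodule.mem_bot] at h1
  exact hw h1

theorem finrank_orbSpan_le {m Δ : ℕ} [NeZero m] (w : ZMod m → Fin Δ → ZMod 2) :
    finrank (ZMod 2) (orbSpan w) ≤ m * Δ := by
  have h := Submodule.finrank_le (orbSpan w)
  rw [finrank_pi_fintype] at h
  simpa [ZMod.card] using h

theorem exists_checks {m q : ℕ} [NeZero m] (hq : 1 ≤ q) :
    ∃ p : Fin (4 * q) → (ZMod m → Fin (16 * q) → ZMod 2), ∀ w : ZMod m → Fin (16 * q) → ZMod 2,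
      w ≠ 0 → (∀ i, check (p i) w = 0) → m * (16 * q) ≤ 400 * wt w := by
  classical
  by_contra hcon
  push Not at hcon
  obtain ⟨N, hN⟩ : ∃ N, m * (16 * q) = N := ⟨_, rfl⟩
  rw [hN] at hcon
  let Z : (ZMod m → Fin (16 * q) → ZMod 2) → Finset (ZMod m → Fin (16 * q) → ZMod 2) :=
    fun w => univ.filter fun p => check p w = 0
  let B : Finset (ZMod m → Fin (16 * q) → ZMod 2) := univ.filter fun w => w ≠ 0 ∧ 400 * wt w < N
  have hZ : ∀ w, (Z w).card * 2 ^ (finrank (ZMod 2) (orbSpan w)) = 2 ^ N := by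
    intro w
    have := card_check w
    rw [hN] at this
    exact this
  have hkN : ∀ w : ZMod m → Fin (16 * q) → ZMod 2, finrank (ZMod 2) (orbSpan w) ≤ N := by
    intro w
    rw [← hN]
    exact finrank_orbSpan_le w
  have hcover : (univ : Finset (Fin (4 * q) → (ZMod m → Fin (16 * q) → ZMod 2))) ⊆
      B.biUnion (fun w => Fintype.piFinset (fun _ : Fin (4 * q) => Z w)) := by
    intro p _
    obtain ⟨w, hw0, hw1, hw2⟩ := hcon p
    refine mem_biUnion.2 ⟨w, mem_filter.2 ⟨mem_univ _, hw0, hw2⟩, ?_⟩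
    rw [Fintype.mem_piFinset]
    intro i
    exact mem_filter.2 ⟨mem_univ _, hw1 i⟩
  have hcard : Fintype.card (ZMod m → Fin (16 * q) → ZMod 2) = 2 ^ N := by
    rw [Fintype.card_fun, Fintype.card_fun, ZMod.card, ZMod.card, Fintype.card_fin, ← pow_mul,
      mul_comm (16 * q) m, hN]
  have h1 : (2 ^ N) ^ (4 * q) ≤ ∑ w ∈ B, (Z w).card ^ (4 * q) := by
    calc (2 ^ N) ^ (4 * q)
        = (univ : Finset (Fin (4 * q) → (ZMod m → Fin (16 * q) → ZMod 2))).card := by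
          rw [card_univ, Fintype.card_fun, hcard, Fintype.card_fin]
      _ ≤ (B.biUnion (fun w => Fintype.piFinset (fun _ : Fin (4 * q) => Z w))).card :=
          card_le_card hcover
      _ ≤ ∑ w ∈ B, (Fintype.piFinset (fun _ : Fin (4 * q) => Z w)).card := card_biUnion_le
      _ = ∑ w ∈ B, (Z w).card ^ (4 * q) := by
          refine sum_congr rfl fun w _ => ?_
          rw [Fintype.card_piFinset, prod_const, card_univ, Fintype.card_fin]
  have h2 : ∑ w ∈ B, (Z w).card ^ (4 * q) =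
      ∑ k ∈ Icc 1 N, ∑ w ∈ B.filter (fun w => finrank (ZMod 2) (orbSpan w) = k),
        (Z w).card ^ (4 * q) := by
    rw [sum_fiberwise_of_maps_to]
    intro w hw
    rw [mem_Icc]
    exact ⟨one_le_finrank_orbSpan (mem_filter.1 hw).2.1, hkN w⟩
  have h3 : ∀ k ∈ Icc 1 N, ((∑ w ∈ B.filter (fun w => finrank (ZMod 2) (orbSpan w) = k),
        (Z w).card ^ (4 * q) : ℕ) : ℝ) ≤ (2 * (2 ^ N) ^ (4 * q)) * (1 / 4 : ℝ) ^ k := by
    intro k hk
    obtain ⟨hk1, hk2⟩ := mem_Icc.1 hk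
    obtain ⟨d, hd⟩ := Nat.exists_eq_add_of_le hk2
    have e1 : ∀ w ∈ B.filter (fun w => finrank (ZMod 2) (orbSpan w) = k), (Z w).card = 2 ^ d := by
      intro w hw
      have h := hZ w
      rw [(mem_filter.1 hw).2, hd, pow_add, mul_comm] at h
      exact Nat.eq_of_mul_eq_mul_left (by positivity) h
    have e2 : (B.filter (fun w => finrank (ZMod 2) (orbSpan w) = k)).card ≤
        2 * 2 ^ (k + k * q) := by
      refine le_trans (card_le_card ?_) (card_low_dim m q k)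
      intro w hw
      have h := mem_filter.1 hw
      have h' := (mem_filter.1 h.1).2
      refine mem_filter.2 ⟨mem_univ _, ?_, h.2⟩
      rw [hN]
      exact h'.2
    have e3 : ∑ w ∈ B.filter (fun w => finrank (ZMod 2) (orbSpan w) = k),
        (Z w).card ^ (4 * q) ≤ 2 * 2 ^ (k + k * q) * (2 ^ d) ^ (4 * q) := by
      rw [sum_congr rfl (fun w hw => by rw [e1 w hw]), sum_const, smul_eq_mul]
      exact Nat.mul_le_mul_right _ e2
    have e4 : 2 * 2 ^ (k + k * q) * (2 ^ d) ^ (4 * q) * 4 ^ k ≤ 2 * (2 ^ N) ^ (4 * q) := by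
      rw [hd, ← pow_mul, ← pow_mul, show (4 : ℕ) = 2 ^ 2 by norm_num, ← pow_mul, mul_assoc,
        mul_assoc, ← pow_add, ← pow_add]
      apply Nat.mul_le_mul_left
      apply Nat.pow_le_pow_right (by norm_num)
      have : k ≤ k * q := Nat.le_mul_of_pos_right k hq
      nlinarith
    have e5 : (2 * 2 ^ (k + k * q) * (2 ^ d) ^ (4 * q) : ℝ) * 4 ^ k ≤ 2 * (2 ^ N) ^ (4 * q) := by
      exact_mod_cast e4
    have e6 : ((∑ w ∈ B.filter (fun w => finrank (ZMod 2) (orbSpan w) = k),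
        (Z w).card ^ (4 * q) : ℕ) : ℝ) ≤ 2 * 2 ^ (k + k * q) * (2 ^ d) ^ (4 * q) := by
      exact_mod_cast e3
    refine le_trans e6 ?_
    rw [one_div, inv_pow, ← div_eq_mul_inv, le_div_iff₀ (by positivity)]
    exact e5
  have h4 : (((2 ^ N) ^ (4 * q) : ℕ) : ℝ) ≤ (2 * (2 ^ N) ^ (4 * q)) * (1 / 3) := by
    calc (((2 ^ N) ^ (4 * q) : ℕ) : ℝ)
        ≤ ((∑ k ∈ Icc 1 N, ∑ w ∈ B.filter (fun w => finrank (ZMod 2) (orbSpan w) = k),
            (Z w).card ^ (4 * q) : ℕ) : ℝ) := by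
          rw [← h2]
          exact_mod_cast h1
      _ = ∑ k ∈ Icc 1 N, ((∑ w ∈ B.filter (fun w => finrank (ZMod 2) (orbSpan w) = k),
            (Z w).card ^ (4 * q) : ℕ) : ℝ) := by rw [Nat.cast_sum]
      _ ≤ ∑ k ∈ Icc 1 N, (2 * (2 ^ N) ^ (4 * q)) * (1 / 4 : ℝ) ^ k := sum_le_sum h3
      _ = (2 * (2 ^ N) ^ (4 * q)) * ∑ k ∈ Icc 1 N, (1 / 4 : ℝ) ^ k := by rw [mul_sum]
      _ ≤ _ := mul_le_mul_of_nonneg_left (sum_quarter N) (by positivity)
  have h5 : (0 : ℝ) < (2 ^ N) ^ (4 * q) := by positivity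
  push_cast at h4
  linarith

end Pool.Agent.Lib.MP_0430e4_lc.Free2
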