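import Mathlib
import Pool.Agent.Lib.MP_0430e4_lc.Free2.U4c

/-!
# The rank threshold, U4d (helper85): the cyclic code
-/

namespace Pool.Agent.Lib.MP_0430e4_lc.Free2

open Finset Module
open Pool.Agent.Lib.MP_0430e4_lc.Free (wt Inv)

theorem check_shift {m Δ : ℕ} [NeZero m] (p w : ZMod m → Fin Δ → ZMod 2) (a : ZMod m) :
    check p (fun x => w (x + a)) = fun x => check p w (x + a) := by
  funext x
  rw [check_apply, check_apply]
  refine Finset.sum_congr rfl fun y _ => Finset.sum_congr rfl fun i _ => ?_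
  rw [show x + y + a = x + a + y by ring]

theorem exists_cyc (m q : ℕ) [NeZero m] (hq : 1 ≤ q) :
    ∃ K : Submodule (ZMod 2) (ZMod m → Fin (16 * q) → ZMod 2), Inv K ∧
      3 * (m * (16 * q)) ≤ 4 * finrank (ZMod 2) K ∧
      ∀ f ∈ K, f ≠ 0 → m * (16 * q) ≤ 400 * wt f := by
  classical
  obtain ⟨p, hp⟩ := exists_checks (m := m) hq
  let L : (ZMod m → Fin (16 * q) → ZMod 2) →ₗ[ZMod 2] (Fin (4 * q) → ZMod m → ZMod 2) :=
    LinearMap.pi fun i => check (p i)
  have hmem : ∀ f, f ∈ LinearMap.ker L ↔ ∀ i, check (p i) f = 0 := by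
    intro f
    rw [LinearMap.mem_ker]
    constructor
    · intro h i
      exact congrFun h i
    · intro h
      funext i
      exact h i
  refine ⟨LinearMap.ker L, ?_, ?_, ?_⟩
  · intro a f hf
    rw [hmem] at hf ⊢
    intro i
    rw [check_shift, hf i]
    rfl
  · have h1 := LinearMap.finrank_range_add_finrank_ker L
    have h2 : finrank (ZMod 2) (LinearMap.range L) ≤ 4 * q * m := by
      refine (Submodule.finrank_le _).trans ?_
      simp [Module.finrank_pi_fintype, ZMod.card]
    have h3 : finrank (ZMod 2) (ZMod m → Fin (16 * q) → ZMod 2) = m * (16 * q) := by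
      simp [Module.finrank_pi_fintype, ZMod.card]
    rw [h3] at h1
    nlinarith
  · intro f hf hf0
    exact hp f hf0 ((hmem f).1 hf)

end Pool.Agent.Lib.MP_0430e4_lc.Free2
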