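import Mathlib
import Pool.Agent.Lib.MP_0430e4_lc.Free2.R0
import Pool.Agent.Lib.MP_0430e4_lc.Free2.U4d

/-!
# The rank threshold for free abelian symmetries of good codes (helper50): codes on lines
-/

namespace Pool.Agent.Lib.MP_0430e4_lc.Free2

open Finset Module
open Pool.Agent.Lib.MP_0430e4_lc.Free (wt Inv Good)

section line

variable {A : Type*} [AddCommGroup A] (u : A) (m : ℕ) [NeZero m]

theorem line_add (hm : addOrderOf u = m) (z z' : ZMod m) :
    (z + z').val • u = z.val • u + z'.val • u := by
  have h := mod_addOrderOf_nsmul u (z.val + z'.val)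
  rw [hm] at h
  rw [ZMod.val_add, ← add_nsmul]
  exact h

theorem line_cast (hm : addOrderOf u = m) (k : ℕ) : ((k : ZMod m)).val • u = k • u := by
  have h := mod_addOrderOf_nsmul u k
  rw [hm] at h
  rw [ZMod.val_natCast]
  exact h

theorem line_inj (hm : addOrderOf u = m) {z z' : ZMod m} (h : z.val • u = z'.val • u) : z = z' := by
  have h1 := (nsmul_eq_nsmul_iff_modEq).1 h
  rw [hm] at h1
  apply ZMod.val_injective
  have h2 : z.val % m = z'.val % m := h1
  rwa [Nat.mod_eq_of_lt (ZMod.val_lt z), Nat.mod_eq_of_lt (ZMod.val_lt z')] at h2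

/-- the functions whose restrictions to all lines lie in `K` -/
def lineSub {ℓ : ℕ} (K : Submodule (ZMod 2) (ZMod m → Fin ℓ → ZMod 2)) :
    Submodule (ZMod 2) (A → Fin ℓ → ZMod 2) where
  carrier := {f | ∀ a, (fun z : ZMod m => f (a + z.val • u)) ∈ K}
  add_mem' := by
    intro f g hf hg a
    exact K.add_mem (hf a) (hg a)
  zero_mem' := fun a => K.zero_mem
  smul_mem' := by
    intro c f hf a
    exact K.smul_mem c (hf a)

theorem mem_lineSub {ℓ : ℕ} (K : Submodule (ZMod 2) (ZMod m → Fin ℓ → ZMod 2))
    (f : A → Fin ℓ → ZMod 2) :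
    f ∈ lineSub u m K ↔ ∀ a, (fun z : ZMod m => f (a + z.val • u)) ∈ K := Iff.rfl

theorem exists_coord (hm : addOrderOf u = m) (a : A) :
    ∃ z : ZMod m, (Quotient.out (QuotientAddGroup.mk (s := AddSubgroup.zmultiples u) a)) +
      z.val • u = a := by
  have h1 : QuotientAddGroup.mk (s := AddSubgroup.zmultiples u)
      (Quotient.out (QuotientAddGroup.mk (s := AddSubgroup.zmultiples u) a)) =
      QuotientAddGroup.mk a := Quotient.out_eq _
  have h2 := QuotientAddGroup.eq.1 h1
  obtain ⟨k, hk⟩ := AddSubgroup.mem_zmultiples_iff.1 h2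
  refine ⟨(k : ZMod m), ?_⟩
  have h3 : ((k : ZMod m)).val • u = k • u := by
    have h4 : (((k : ZMod m)).val : ℤ) = k % m := by
      rw [ZMod.val_intCast]
    have h5 : ((((k : ZMod m)).val : ℤ)) • u = k • u := by
      have h := mod_addOrderOf_zsmul u k
      rw [hm] at h
      rw [h4]
      exact h
    rw [← h5, natCast_zsmul]
  rw [h3, hk]
  abel

theorem exists_line_aux [Fintype A] (hm : addOrderOf u = m) {ℓ : ℕ}
    (K : Submodule (ZMod 2) (ZMod m → Fin ℓ → ZMod 2)) (hK : Free.Inv K) :
    Nat.card A * finrank (ZMod 2) K ≤ m * finrank (ZMod 2) (lineSub u m K : Submodule (ZMod 2) (A → Fin ℓ → ZMod 2)) := by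
  classical
  let Q := A ⧸ AddSubgroup.zmultiples u
  choose t ht using exists_coord u m hm
  have tadd : ∀ a (z : ZMod m), t (a + z.val • u) = t a + z := by
    intro a z
    apply line_inj u m hm
    have h1 := ht (a + z.val • u)
    have h2 : QuotientAddGroup.mk (s := AddSubgroup.zmultiples u) (a + z.val • u) =
        QuotientAddGroup.mk a := by
      symm
      rw [QuotientAddGroup.eq]
      have : -a + (a + z.val • u) = z.val • u := by abel
      rw [this]
      exact AddSubgroup.nsmul_mem _ (AddSubgroup.mem_zmultiples u) _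
    rw [h2] at h1
    have h3 := ht a
    rw [line_add u m hm]
    have h4 : Quotient.out (QuotientAddGroup.mk (s := AddSubgroup.zmultiples u) a) +
        (t (a + z.val • u)).val • u =
        Quotient.out (QuotientAddGroup.mk (s := AddSubgroup.zmultiples u) a) +
        ((t a).val • u + z.val • u) := by
      rw [h1, ← add_assoc, h3]
    exact add_left_cancel h4
  have mkadd : ∀ a (z : ZMod m), (QuotientAddGroup.mk (a + z.val • u) : Q) = QuotientAddGroup.mk a := by
    intro a z
    symm
    rw [QuotientAddGroup.eq]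
    have : -a + (a + z.val • u) = z.val • u := by abel
    rw [this]
    exact AddSubgroup.nsmul_mem _ (AddSubgroup.mem_zmultiples u) _
  let Φ : (Q → K) →ₗ[ZMod 2] (lineSub u m K : Submodule (ZMod 2) (A → Fin ℓ → ZMod 2)) :=
    { toFun := fun g => ⟨fun a => (g (QuotientAddGroup.mk a)).1 (t a), by
        rw [mem_lineSub]
        intro a
        have h := hK (t a) _ (g (QuotientAddGroup.mk a)).2
        have e : (fun z : ZMod m => (g (QuotientAddGroup.mk (a + z.val • u))).1 (t (a + z.val • u))) =
            fun x => (g (QuotientAddGroup.mk a)).1 (x + t a) := by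
          funext z
          rw [mkadd, tadd, add_comm]
        rw [e]
        exact h⟩
      map_add' := fun g h => rfl
      map_smul' := fun c g => rfl }
  have hΦ : Function.Injective Φ := by
    rw [injective_iff_map_eq_zero]
    intro g hg
    funext c
    obtain ⟨a, rfl⟩ := QuotientAddGroup.mk_surjective c
    apply Subtype.ext
    funext z
    have h1 := congrArg (fun f => f.1 (a + (z - t a).val • u)) hg
    simp only [Φ, LinearMap.coe_mk, AddHom.coe_mk] at h1
    rw [mkadd, tadd] at h1
    have : t a + (z - t a) = z := by abel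
    rw [this] at h1
    exact h1
  have h1 := LinearMap.finrank_le_finrank_of_injective hΦ
  have : Fintype Q := Fintype.ofFinite Q
  rw [finrank_pi_fintype] at h1
  have hc : Nat.card A = Nat.card Q * m := by
    rw [AddSubgroup.card_eq_card_quotient_mul_card_addSubgroup (AddSubgroup.zmultiples u),
      Nat.card_zmultiples, hm]
  rw [hc, mul_comm (Nat.card Q) m, mul_assoc]
  apply Nat.mul_le_mul_left
  rw [Nat.card_eq_fintype_card]
  simpa using h1

end line

/-! U5 -/
theorem exists_line (A : Type*) [AddCommGroup A] [Fintype A] (u : A) (q : ℕ) (hq : 1 ≤ q) :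
    ∃ D : Submodule (ZMod 2) (A → Fin (16 * q) → ZMod 2), InvI D ∧
      3 * (Nat.card A * (16 * q)) ≤ 4 * finrank (ZMod 2) D ∧
      ∀ f ∈ D, (16 * q) * Set.ncard {a : A | ∃ k : ℕ, f (a + k • u) ≠ 0} ≤ 400 * wtI f := by
  classical
  obtain ⟨m, hm⟩ : ∃ m, addOrderOf u = m := ⟨_, rfl⟩
  have hm0 : 0 < m := by rw [← hm]; exact addOrderOf_pos u
  haveI : NeZero m := ⟨hm0.ne'⟩
  obtain ⟨K, hK, hd, hw⟩ := exists_cyc m q hq
  refine ⟨lineSub u m K, ?_, ?_, ?_⟩
  · intro b f hf a
    have h := (mem_lineSub u m K f).1 hf (a + b)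
    have e : (fun z : ZMod m => f (a + b + z.val • u)) = fun z : ZMod m => f (a + z.val • u + b) := by
      funext z
      congr 1
      abel
    rw [e] at h
    exact h
  · have h1 := exists_line_aux u m hm K hK
    have h2 : m * (3 * (Nat.card A * (16 * q))) ≤ m * (4 * finrank (ZMod 2) (lineSub u m K : Submodule (ZMod 2) (A → Fin (16 * q) → ZMod 2))) := by
      calc m * (3 * (Nat.card A * (16 * q))) = Nat.card A * (3 * (m * (16 * q))) := by ring
        _ ≤ Nat.card A * (4 * finrank (ZMod 2) K) := Nat.mul_le_mul_left _ hd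
        _ = 4 * (Nat.card A * finrank (ZMod 2) K) := by ring
        _ ≤ 4 * (m * finrank (ZMod 2) (lineSub u m K : Submodule (ZMod 2) (A → Fin (16 * q) → ZMod 2))) := Nat.mul_le_mul_left _ h1
        _ = _ := by ring
    exact Nat.le_of_mul_le_mul_left h2 hm0
  · intro f hf
    have hwt : ∀ g : ZMod m → Fin (16 * q) → ZMod 2, wt g = ∑ x, hammingNorm (g x) :=
      fun g => wtI_eq_sum g
    have hs : ∑ a : A, wt (fun z : ZMod m => f (a + z.val • u)) = m * wtI f := by
      simp only [hwt]
      rw [Finset.sum_comm]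
      have : ∀ z : ZMod m, ∑ a : A, hammingNorm (f (a + z.val • u)) = wtI f := by
        intro z
        rw [wtI_eq_sum]
        exact Fintype.sum_equiv (Equiv.addRight (z.val • u)) _ _ (fun a => rfl)
      rw [Finset.sum_congr rfl (fun z _ => this z), Finset.sum_const, Finset.card_univ,
        ZMod.card, smul_eq_mul]
    have e1 : {a : A | ∃ k : ℕ, f (a + k • u) ≠ 0} =
        ((univ.filter fun a : A => ∃ k : ℕ, f (a + k • u) ≠ 0 : Finset A) : Set A) := by
      ext a; simp
    rw [e1, Set.ncard_coe_finset]
    have h1 : m * ((16 * q) * (univ.filter fun a : A => ∃ k : ℕ, f (a + k • u) ≠ 0).card) ≤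
        m * (400 * wtI f) := by
      calc m * ((16 * q) * (univ.filter fun a : A => ∃ k : ℕ, f (a + k • u) ≠ 0).card)
          = ∑ _a ∈ univ.filter (fun a : A => ∃ k : ℕ, f (a + k • u) ≠ 0), m * (16 * q) := by
            rw [Finset.sum_const, smul_eq_mul]; ring
        _ ≤ ∑ a ∈ univ.filter (fun a : A => ∃ k : ℕ, f (a + k • u) ≠ 0),
              400 * wt (fun z : ZMod m => f (a + z.val • u)) := by
            apply Finset.sum_le_sum
            intro a ha
            obtain ⟨k, hk⟩ := (Finset.mem_filter.1 ha).2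
            apply hw _ ((mem_lineSub u m K f).1 hf a)
            intro h0
            apply hk
            have := congrFun h0 (k : ZMod m)
            simp only [line_cast u m hm] at this
            exact this
        _ ≤ ∑ a : A, 400 * wt (fun z : ZMod m => f (a + z.val • u)) :=
            Finset.sum_le_sum_of_subset (Finset.filter_subset _ _)
        _ = 400 * (m * wtI f) := by rw [← Finset.mul_sum, hs]
        _ = m * (400 * wtI f) := by ring
    exact Nat.le_of_mul_le_mul_left h1 hm0

end Pool.Agent.Lib.MP_0430e4_lc.Free2
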