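import Mathlib
import Pool.Agent.Lib.MP_0430e4_lc.Free2.R0

/-!
# The rank threshold, U6a (helper85): the number of characters of given order
-/

namespace Pool.Agent.Lib.MP_0430e4_lc.Free2

open Finset Module

theorem card_char {A : Type*} [AddCommGroup A] [Fintype A] {r : ℕ} (a : Fin r → A)
    (ha : AddSubgroup.closure (Set.range a) = ⊤) (t : ℕ) (ht : 1 ≤ t) (T : Finset (AddChar A ℂ))
    (hT : ∀ χ ∈ T, t • χ = 0) : T.card ≤ t ^ r := by
  classical
  have h1 : ∀ χ ∈ T, (fun i => χ (a i)) ∈
      Fintype.piFinset fun _ : Fin r => Polynomial.nthRootsFinset t (1 : ℂ) := by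
    intro χ hχ
    rw [Fintype.mem_piFinset]
    intro i
    rw [Polynomial.mem_nthRootsFinset (by omega)]
    have h2 := hT χ hχ
    have h3 : (t • χ) (a i) = (0 : AddChar A ℂ) (a i) := by rw [h2]
    simpa using h3
  have h2 : Set.InjOn (fun (χ : AddChar A ℂ) (i : Fin r) => χ (a i)) (T : Set (AddChar A ℂ)) := by
    intro χ _ ψ _ h
    ext x
    have hx : x ∈ AddSubgroup.closure (Set.range a) := by rw [ha]; trivial
    induction hx using AddSubgroup.closure_induction with
    | mem y hy =>
      obtain ⟨i, rfl⟩ := hy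
      exact congrFun h i
    | zero => simp
    | add y z _ _ ihy ihz => rw [AddChar.map_add_eq_mul, AddChar.map_add_eq_mul, ihy, ihz]
    | neg y _ ihy => rw [AddChar.map_neg_eq_inv, AddChar.map_neg_eq_inv, ihy]
  have h3 := Finset.card_le_card_of_injOn _ h1 h2
  refine h3.trans ?_
  rw [Fintype.card_piFinset, Finset.prod_const, Finset.card_univ, Fintype.card_fin]
  apply Nat.pow_le_pow_left
  rw [Polynomial.nthRootsFinset_def]
  exact (Multiset.toFinset_card_le _).trans (Polynomial.card_nthRoots t 1)

end Pool.Agent.Lib.MP_0430e4_lc.Free2
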