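import Mathlib.Analysis.Fourier.FiniteAbelian.Orthogonality
import Mathlib.Algebra.Group.AddChar

/-!
# The kernel of a character of a finite abelian group
-/

open Finset

namespace Pool.Agent.Lib.MP_0430e4_lc.Free2

theorem card_eq_one {A : Type*} [AddCommGroup A] [Fintype A] (χ : AddChar A ℂ)
    [DecidablePred fun a : A => χ a = 1] :
    addOrderOf χ * (univ.filter fun a : A => χ a = 1).card = Fintype.card A := by
  classical
  set t := addOrderOf χ with ht
  have hfin : 0 < t := addOrderOf_pos χ
  have hchi : ∀ (i : ℕ) (a : A), (i • χ) a = χ a ^ i := fun i a => by rw [AddChar.nsmul_apply]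
  have h1 : ∑ i ∈ range t, ∑ a, χ a ^ i = (Fintype.card A : ℂ) := by
    rw [sum_eq_single_of_mem 0 (mem_range.2 hfin)]
    · simp
    · intro i hi hi0
      have h2 : i • χ ≠ 0 := by
        intro h3
        have h4 := addOrderOf_dvd_of_nsmul_eq_zero h3
        have h5 := Nat.le_of_dvd (Nat.pos_of_ne_zero hi0) h4
        have := mem_range.1 hi
        omega
      have h3 := AddChar.sum_eq_ite (i • χ)
      rw [if_neg h2] at h3
      simpa [hchi] using h3
  have h2 : ∀ a, ∑ i ∈ range t, χ a ^ i = if χ a = 1 then (t : ℂ) else 0 := by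
    intro a
    split_ifs with h
    · simp [h]
    · have h3 := geom_sum_mul (χ a) t
      have h4 : χ a ^ t = 1 := by
        rw [← hchi, ht, addOrderOf_nsmul_eq_zero]
        rfl
      rw [h4, sub_self] at h3
      rcases mul_eq_zero.1 h3 with h5 | h5
      · exact h5
      · exact absurd (sub_eq_zero.1 h5) h
  rw [sum_comm, sum_congr rfl (fun a _ => h2 a), ← sum_filter, sum_const, nsmul_eq_mul] at h1
  have h5 : ((t * (univ.filter fun a : A => χ a = 1).card : ℕ) : ℂ) = (Fintype.card A : ℂ) := by
    rw [← h1]
    push_cast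
    ring
  exact_mod_cast h5

end Pool.Agent.Lib.MP_0430e4_lc.Free2
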