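import Mathlib

/-!
# Free abelian symmetries of good codes (helper91, module U6c): second moment of a random
character sum
-/

namespace Pool.Agent.Lib.MP_0430e4_lc.Free2

open Finset

section secmom

variable {A : Type*} [AddCommGroup A] [Fintype A]

theorem smom_zero [DecidableEq A] {χ : AddChar A ℂ} (hχ : χ ≠ 0) {Δ : ℕ} {s s' : Fin Δ}
    (hs : s ≠ s') : ∑ g : Fin Δ → A, χ (g s - g s') = 0 := by
  obtain ⟨a, ha⟩ := AddChar.ne_zero_iff.1 hχ
  have h1 : ∑ g : Fin Δ → A, χ (g s - g s') = χ a * ∑ g : Fin Δ → A, χ (g s - g s') := by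
    rw [Finset.mul_sum, ← Equiv.sum_comp (Equiv.addRight (Pi.single s a : Fin Δ → A))]
    refine Finset.sum_congr rfl fun g _ => ?_
    rw [← AddChar.map_add_eq_mul]
    congr 1
    simp only [Equiv.coe_addRight, Pi.add_apply, Pi.single_eq_same,
      Pi.single_eq_of_ne (Ne.symm hs)]
    abel
  have h2 : (1 - χ a) * ∑ g : Fin Δ → A, χ (g s - g s') = 0 := by
    rw [sub_mul, one_mul, ← h1, sub_self]
  rcases mul_eq_zero.1 h2 with h3 | h3
  · exact absurd (sub_eq_zero.1 h3).symm ha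
  · exact h3

theorem second_moment {A : Type*} [AddCommGroup A] [Fintype A] {χ : AddChar A ℂ} (hχ : χ ≠ 0)
    (Δ : ℕ) : ∑ g : Fin Δ → A, ‖∑ s, χ (g s)‖ ^ 2 = Δ * (Fintype.card A : ℝ) ^ Δ := by
  classical
  have h : ((∑ g : Fin Δ → A, ‖∑ s, χ (g s)‖ ^ 2 : ℝ) : ℂ) =
      ((Δ * (Fintype.card A : ℝ) ^ Δ : ℝ) : ℂ) := by
    push_cast
    have h1 : ∀ g : Fin Δ → A, ((‖∑ s, χ (g s)‖ : ℂ)) ^ 2 =
        ∑ s, ∑ s', χ (g s - g s') := by
      intro g
      rw [← Complex.mul_conj', map_sum, Finset.sum_mul_sum]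
      refine Finset.sum_congr rfl fun x _ => Finset.sum_congr rfl fun y _ => ?_
      rw [← AddChar.map_neg_eq_conj, ← AddChar.map_add_eq_mul, sub_eq_add_neg]
    simp only [h1]
    rw [Finset.sum_comm]
    have h2 : ∀ s : Fin Δ, ∑ g : Fin Δ → A, ∑ s', χ (g s - g s') =
        (Fintype.card A : ℂ) ^ Δ := by
      intro s
      rw [Finset.sum_comm, Finset.sum_eq_single s]
      · simp
      · intro s' _ hs'
        exact smom_zero hχ (Ne.symm hs')
      · intro h; exact absurd (mem_univ _) h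
    simp only [h2, Finset.sum_const, card_univ, Fintype.card_fin, nsmul_eq_mul]
  exact_mod_cast h

end secmom

end Pool.Agent.Lib.MP_0430e4_lc.Free2
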