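import Mathlib

/-!
# The rank threshold for free abelian symmetries of good codes (helper91): large deviations
-/

namespace Pool.Agent.Lib.MP_0430e4_lc.Free2

open Finset

theorem chernoff {Ω : Type*} [Fintype Ω] [Nonempty Ω] (Z : Ω → ℝ) (h0 : ∀ ω, 0 ≤ Z ω)
    (h1 : ∀ ω, Z ω ≤ 1) {t Δ : ℝ} (ht : 2 ≤ t) (hΔ : 1 ≤ Δ)
    (hZ : t * Δ * ∑ ω, Z ω ≤ Fintype.card Ω) (n : ℕ) (r : ℕ) (hn : Δ * (r + 2) ≤ n)
    [DecidablePred fun ω : Fin n → Ω => 4 / Δ * n < ∑ j, Z (ω j)] :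
    ((univ.filter fun ω : Fin n → Ω => 4 / Δ * n < ∑ j, Z (ω j)).card : ℝ) * t ^ (r + 2) ≤
      (Fintype.card Ω : ℝ) ^ n := by
  classical
  have ht0 : 0 < t := by linarith
  have ht1 : 1 ≤ t := by linarith
  have hΔ0 : 0 < Δ := by linarith
  set N : ℝ := ((univ.filter fun ω : Fin n → Ω => 4 / Δ * n < ∑ j, Z (ω j)).card : ℝ) with hN
  have hS0 : 0 ≤ ∑ ω, Z ω := Finset.sum_nonneg fun ω _ => h0 ω
  have e1 : N * t ^ (4 / Δ * n : ℝ) ≤ ∑ ω : Fin n → Ω, ∏ j, t ^ (Z (ω j)) := by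
    rw [hN, ← nsmul_eq_mul, ← Finset.sum_const]
    calc ∑ _ω ∈ univ.filter (fun ω : Fin n → Ω => 4 / Δ * n < ∑ j, Z (ω j)), t ^ (4 / Δ * n : ℝ)
        ≤ ∑ ω ∈ univ.filter (fun ω : Fin n → Ω => 4 / Δ * n < ∑ j, Z (ω j)),
            ∏ j, t ^ (Z (ω j)) := by
          apply Finset.sum_le_sum
          intro ω hω
          rw [← Real.rpow_sum_of_pos ht0]
          exact Real.rpow_le_rpow_of_exponent_le ht1 (mem_filter.1 hω).2.le
      _ ≤ _ := Finset.sum_le_sum_of_subset_of_nonneg (filter_subset _ _)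
          (fun ω _ _ => Finset.prod_nonneg fun j _ => (Real.rpow_pos_of_pos ht0 _).le)
  have e2 : ∑ ω : Fin n → Ω, ∏ j, t ^ (Z (ω j)) = (∑ ω, t ^ (Z ω)) ^ n := by
    have h2 := Finset.prod_univ_sum (fun _ : Fin n => (univ : Finset Ω))
      (fun _ a => t ^ (Z a))
    rw [Fintype.piFinset_univ] at h2
    rw [← h2, Finset.prod_const, card_univ, Fintype.card_fin]
  have e3 : ∑ ω, t ^ (Z ω) ≤ Fintype.card Ω * Real.exp (1 / Δ) := by
    calc ∑ ω, t ^ (Z ω) ≤ ∑ ω, (1 + Z ω * (t - 1)) := by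
          apply Finset.sum_le_sum
          intro ω _
          have h2 := rpow_one_add_le_one_add_mul_self (s := t - 1) (by linarith) (h0 ω) (h1 ω)
          rw [add_sub_cancel] at h2
          exact h2
      _ = Fintype.card Ω + (t - 1) * ∑ ω, Z ω := by
          rw [Finset.sum_add_distrib, Finset.sum_const, card_univ, nsmul_eq_mul, mul_one,
            ← Finset.sum_mul, mul_comm (t - 1)]
      _ ≤ Fintype.card Ω + Fintype.card Ω / Δ := by
          have h2 : (t - 1) * ∑ ω, Z ω ≤ Fintype.card Ω / Δ := by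
            rw [le_div_iff₀ hΔ0]
            nlinarith
          linarith
      _ = Fintype.card Ω * (1 / Δ + 1) := by ring
      _ ≤ _ := mul_le_mul_of_nonneg_left (Real.add_one_le_exp _) (Nat.cast_nonneg _)
  have e4 : N * t ^ (4 / Δ * n : ℝ) ≤ (Fintype.card Ω : ℝ) ^ n * t ^ (2 / Δ * n : ℝ) := by
    calc N * t ^ (4 / Δ * n : ℝ) ≤ (∑ ω, t ^ (Z ω)) ^ n := e1.trans e2.le
      _ ≤ (Fintype.card Ω * Real.exp (1 / Δ)) ^ n :=
          pow_le_pow_left₀ (Finset.sum_nonneg fun ω _ => (Real.rpow_pos_of_pos ht0 _).le) e3 n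
      _ = (Fintype.card Ω : ℝ) ^ n * Real.exp (1 / Δ * n) := by
          rw [mul_pow, ← Real.exp_nat_mul]
          congr 2
          ring
      _ ≤ _ := by
          apply mul_le_mul_of_nonneg_left _ (by positivity)
          rw [Real.rpow_def_of_pos ht0, Real.exp_le_exp]
          have h2 : (1 / 2 : ℝ) ≤ Real.log t := by
            have h3 := Real.log_two_gt_d9
            have h4 := Real.log_le_log (by norm_num) ht
            linarith
          have h3 : 0 ≤ 2 / Δ * (n : ℝ) := by positivity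
          calc 1 / Δ * (n : ℝ) = (1 / 2) * (2 / Δ * n) := by ring
            _ ≤ Real.log t * (2 / Δ * n) := mul_le_mul_of_nonneg_right h2 h3
  have e5 : N * t ^ (2 / Δ * n : ℝ) ≤ (Fintype.card Ω : ℝ) ^ n := by
    have h2 : t ^ (4 / Δ * n : ℝ) = t ^ (2 / Δ * n : ℝ) * t ^ (2 / Δ * n : ℝ) := by
      rw [← Real.rpow_add ht0]
      congr 1
      ring
    rw [h2, ← mul_assoc] at e4
    exact le_of_mul_le_mul_right e4 (Real.rpow_pos_of_pos ht0 _)
  refine le_trans ?_ e5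
  apply mul_le_mul_of_nonneg_left _ (Nat.cast_nonneg _)
  rw [← Real.rpow_natCast]
  apply Real.rpow_le_rpow_of_exponent_le ht1
  push_cast
  have h2 : (r : ℝ) + 2 ≤ n / Δ := by
    rw [le_div_iff₀ hΔ0]
    linarith
  have h3 : 2 / Δ * (n : ℝ) = 2 * (n / Δ) := by ring
  rw [h3]
  have h4 : (0 : ℝ) ≤ r := Nat.cast_nonneg _
  linarith

end Pool.Agent.Lib.MP_0430e4_lc.Free2
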