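import Mathlib
import Pool.Agent.Lib.MP_0430e4_lc.Free2.U6a
import Pool.Agent.Lib.MP_0430e4_lc.Free2.U6b
import Pool.Agent.Lib.MP_0430e4_lc.Free2.U6c
import Pool.Agent.Lib.MP_0430e4_lc.Free2.U6d

/-!
# Free abelian symmetries of good codes (helper91, module U6e): choice of the lines and the points
-/

namespace Pool.Agent.Lib.MP_0430e4_lc.Free2

open Finset

theorem choice_sq (T : ℕ) (hT : 1 ≤ T) :
    ∑ t ∈ Icc 2 T, (1 : ℝ) / (t : ℝ) ^ 2 ≤ 1 - 1 / (T : ℝ) := by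
  induction T, hT using Nat.le_induction with
  | base => simp
  | succ T hT ih =>
    rw [Finset.sum_Icc_succ_top (by omega)]
    have hT0 : (0 : ℝ) < T := by exact_mod_cast hT
    have h : 1 / ((T + 1 : ℕ) : ℝ) ^ 2 ≤ 1 / (T : ℝ) - 1 / ((T + 1 : ℕ) : ℝ) := by
      push_cast
      rw [div_sub_div _ _ hT0.ne' (by positivity), div_le_div_iff₀ (by positivity) (by positivity)]
      nlinarith
    linarith

section choice

variable {A : Type*} [AddCommGroup A] [Fintype A]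

open Classical in
/-- the normalised square of the character sum -/
noncomputable def ZZ (χ : AddChar A ℂ) (Δ : ℕ) (w : A × (Fin Δ → A)) : ℝ :=
  if χ w.1 = 1 then ‖∑ s, χ (w.2 s)‖ ^ 2 / (Δ : ℝ) ^ 2 else 0

omit [Fintype A] in
theorem ZZ_nonneg (χ : AddChar A ℂ) (Δ : ℕ) (w : A × (Fin Δ → A)) : 0 ≤ ZZ χ Δ w := by
  unfold ZZ
  split_ifs
  · positivity
  · exact le_rfl

theorem ZZ_le_one (χ : AddChar A ℂ) {Δ : ℕ} (hΔ : 1 ≤ Δ) (w : A × (Fin Δ → A)) :
    ZZ χ Δ w ≤ 1 := by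
  unfold ZZ
  split_ifs
  · have hD : (0 : ℝ) < Δ := by exact_mod_cast hΔ
    rw [div_le_one (by positivity)]
    have h1 : ‖∑ s, χ (w.2 s)‖ ≤ Δ := by
      refine (norm_sum_le _ _).trans (le_of_eq ?_)
      simp [AddChar.norm_apply]
    exact pow_le_pow_left₀ (norm_nonneg _) h1 2
  · exact zero_le_one

theorem ZZ_sum {χ : AddChar A ℂ} (hχ : χ ≠ 0) {Δ : ℕ} (hΔ : 1 ≤ Δ) :
    (addOrderOf χ : ℝ) * Δ * ∑ w, ZZ χ Δ w = Fintype.card (A × (Fin Δ → A)) := by
  classical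
  have hD : (0 : ℝ) < Δ := by exact_mod_cast hΔ
  have h1 : ∑ w : A × (Fin Δ → A), ZZ χ Δ w =
      (univ.filter fun a : A => χ a = 1).card * (Fintype.card A : ℝ) ^ Δ / Δ := by
    rw [Fintype.sum_prod_type]
    have h2 : ∀ x : A, ∑ y : Fin Δ → A, ZZ χ Δ (x, y) =
        if χ x = 1 then (Fintype.card A : ℝ) ^ Δ / Δ else 0 := by
      intro x
      unfold ZZ
      by_cases hx : χ x = 1
      · simp only [if_pos hx]
        rw [← Finset.sum_div, second_moment hχ]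
        field_simp
      · simp only [if_neg hx, Finset.sum_const_zero]
    simp only [h2]
    rw [← Finset.sum_filter, Finset.sum_const, nsmul_eq_mul]
    ring
  have h3 := card_eq_one χ
  rw [h1, Fintype.card_prod, Fintype.card_fun, Fintype.card_fin, ← h3]
  push_cast
  field_simp

end choice

theorem exists_choice {A : Type*} [AddCommGroup A] [Fintype A] {r : ℕ} (a : Fin r → A)
    (ha : AddSubgroup.closure (Set.range a) = ⊤) {Δ n : ℕ} (hΔ : 1 ≤ Δ)
    (hn : Δ * (r + 2) ≤ n) :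
    ∃ (u : Fin n → A) (g : Fin n → Fin Δ → A), ∀ χ : AddChar A ℂ, χ ≠ 0 →
      ∑ j, (open Classical in if χ (u j) = 1 then ‖∑ s, χ (g j s)‖ ^ 2 else 0) ≤ 4 * (n * Δ) := by
  classical
  have hD : (0 : ℝ) < Δ := by exact_mod_cast hΔ
  have : Nonempty A := ⟨0⟩
  let Ω := A × (Fin Δ → A)
  have hΩ : (0 : ℝ) < (Fintype.card Ω : ℝ) ^ n := by
    have : 0 < Fintype.card Ω := Fintype.card_pos
    positivity
  let bad : AddChar A ℂ → Finset (Fin n → Ω) := fun χ =>
    univ.filter fun ω : Fin n → Ω => 4 / (Δ : ℝ) * n < ∑ j, ZZ χ Δ (ω j)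
  have hord : ∀ χ : AddChar A ℂ, χ ≠ 0 → 2 ≤ addOrderOf χ := by
    intro χ hχ
    have h1 : 0 < addOrderOf χ := addOrderOf_pos χ
    have h2 : addOrderOf χ ≠ 1 := fun h => hχ (AddMonoid.addOrderOf_eq_one_iff.1 h)
    omega
  have hbad : ∀ χ ∈ univ.erase (0 : AddChar A ℂ), ((bad χ).card : ℝ) ≤
      (Fintype.card Ω : ℝ) ^ n * (1 / (addOrderOf χ : ℝ) ^ (r + 2)) := by
    intro χ hχ
    have hχ0 := Finset.ne_of_mem_erase hχ
    have h2 := hord χ hχ0
    have h3 : (2 : ℝ) ≤ (addOrderOf χ : ℝ) := by exact_mod_cast h2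
    have h4 := chernoff (Ω := Ω) (ZZ χ Δ) (ZZ_nonneg χ Δ) (ZZ_le_one χ hΔ) h3
      (by exact_mod_cast hΔ : (1 : ℝ) ≤ (Δ : ℝ)) (ZZ_sum hχ0 hΔ).le n r (by exact_mod_cast hn)
    rw [mul_one_div, le_div_iff₀ (by positivity)]
    exact h4
  set T := Fintype.card (AddChar A ℂ) with hTdef
  have hT1 : 1 ≤ T := Fintype.card_pos
  have hsum : ∑ χ ∈ univ.erase (0 : AddChar A ℂ), (1 / (addOrderOf χ : ℝ) ^ (r + 2)) < 1 := by
    have hmaps : ∀ χ ∈ univ.erase (0 : AddChar A ℂ), addOrderOf χ ∈ Icc 2 T := by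
      intro χ hχ
      rw [mem_Icc]
      exact ⟨hord χ (Finset.ne_of_mem_erase hχ), addOrderOf_le_card_univ⟩
    rw [← Finset.sum_fiberwise_of_maps_to hmaps]
    have hfib : ∀ t ∈ Icc 2 T,
        ∑ χ ∈ (univ.erase (0 : AddChar A ℂ)).filter (fun χ => addOrderOf χ = t),
          (1 / (addOrderOf χ : ℝ) ^ (r + 2)) ≤ 1 / (t : ℝ) ^ 2 := by
      intro t ht
      have ht2 : 2 ≤ t := (mem_Icc.1 ht).1
      have ht0 : (0 : ℝ) < t := by
        have : 0 < t := by omega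
        exact_mod_cast this
      have h1 : ∑ χ ∈ (univ.erase (0 : AddChar A ℂ)).filter (fun χ => addOrderOf χ = t),
          (1 / (addOrderOf χ : ℝ) ^ (r + 2)) =
          (((univ.erase (0 : AddChar A ℂ)).filter (fun χ => addOrderOf χ = t)).card : ℝ) *
            (1 / (t : ℝ) ^ (r + 2)) := by
        rw [Finset.sum_congr rfl (g := fun _ => 1 / (t : ℝ) ^ (r + 2)), Finset.sum_const,
          nsmul_eq_mul]
        intro χ hχ
        rw [(mem_filter.1 hχ).2]
      rw [h1]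
      have h2 := card_char a ha t (by omega)
        ((univ.erase (0 : AddChar A ℂ)).filter (fun χ => addOrderOf χ = t)) (by
          intro χ hχ
          rw [← (mem_filter.1 hχ).2]
          exact addOrderOf_nsmul_eq_zero χ)
      have h3 : (((univ.erase (0 : AddChar A ℂ)).filter (fun χ => addOrderOf χ = t)).card : ℝ) ≤
          (t : ℝ) ^ r := by exact_mod_cast h2
      calc _ ≤ (t : ℝ) ^ r * (1 / (t : ℝ) ^ (r + 2)) :=
            mul_le_mul_of_nonneg_right h3 (by positivity)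
        _ = _ := by
            rw [pow_add]
            field_simp
    refine (Finset.sum_le_sum hfib).trans_lt ((choice_sq T hT1).trans_lt ?_)
    have : (0 : ℝ) < T := by exact_mod_cast hT1
    have : 0 < 1 / (T : ℝ) := by positivity
    linarith
  have hcount : (((univ.erase (0 : AddChar A ℂ)).biUnion bad).card : ℝ) <
      (Fintype.card Ω : ℝ) ^ n := by
    calc (((univ.erase (0 : AddChar A ℂ)).biUnion bad).card : ℝ)
        ≤ ∑ χ ∈ univ.erase (0 : AddChar A ℂ), ((bad χ).card : ℝ) := by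
          exact_mod_cast Finset.card_biUnion_le
      _ ≤ ∑ χ ∈ univ.erase (0 : AddChar A ℂ),
          (Fintype.card Ω : ℝ) ^ n * (1 / (addOrderOf χ : ℝ) ^ (r + 2)) :=
          Finset.sum_le_sum hbad
      _ = (Fintype.card Ω : ℝ) ^ n *
          ∑ χ ∈ univ.erase (0 : AddChar A ℂ), (1 / (addOrderOf χ : ℝ) ^ (r + 2)) := by
          rw [Finset.mul_sum]
      _ < (Fintype.card Ω : ℝ) ^ n * 1 := mul_lt_mul_of_pos_left hsum hΩ
      _ = _ := mul_one _
  have hex : ∃ ω : Fin n → Ω, ω ∉ (univ.erase (0 : AddChar A ℂ)).biUnion bad := by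
    by_contra hcon
    push Not at hcon
    have h1 : (univ.erase (0 : AddChar A ℂ)).biUnion bad = univ :=
      Finset.eq_univ_of_forall hcon
    rw [h1, card_univ, Fintype.card_fun, Fintype.card_fin] at hcount
    push_cast at hcount
    exact lt_irrefl _ hcount
  obtain ⟨ω, hω⟩ := hex
  refine ⟨fun j => (ω j).1, fun j => (ω j).2, fun χ hχ => ?_⟩
  have h1 : ω ∉ bad χ := fun h => hω (mem_biUnion.2 ⟨χ, mem_erase.2 ⟨hχ, mem_univ _⟩, h⟩)
  have h2 : ∑ j, ZZ χ Δ (ω j) ≤ 4 / (Δ : ℝ) * n := by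
    by_contra h
    exact h1 (mem_filter.2 ⟨mem_univ _, not_le.1 h⟩)
  have h3 : ∑ j, (if χ (ω j).1 = 1 then ‖∑ s, χ ((ω j).2 s)‖ ^ 2 else 0) =
      (Δ : ℝ) ^ 2 * ∑ j, ZZ χ Δ (ω j) := by
    rw [Finset.mul_sum]
    refine Finset.sum_congr rfl fun j _ => ?_
    unfold ZZ
    split_ifs
    · field_simp
    · simp
  refine le_trans (le_of_eq ?_) (le_trans (mul_le_mul_of_nonneg_left h2 (by positivity :
    (0 : ℝ) ≤ (Δ : ℝ) ^ 2)) (le_of_eq ?_))
  · rw [← h3]
  · field_simp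

end Pool.Agent.Lib.MP_0430e4_lc.Free2
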