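import Mathlib
import Pool.Agent.Lib.MP_0430e4_lc.Free2.R0
import Pool.Agent.Lib.MP_0430e4_lc.Free.Local
import Pool.Agent.Lib.MP_0430e4_lc.Free.Tanner
import Pool.Agent.Lib.MP_0430e4_lc.Free2.U5
import Pool.Agent.Lib.MP_0430e4_lc.Free2.U6e
import Pool.Agent.Lib.MP_0430e4_lc.Free2.MixLines
import Pool.Agent.Lib.MP_0430e4_lc.Free.Rank

/-!
# The rank threshold for free abelian symmetries of good codes (helper91): the code of points and lines
-/

namespace Pool.Agent.Lib.MP_0430e4_lc.Free2

open Finset Module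
open Pool.Agent.Lib.MP_0430e4_lc.Free (wt Inv Good mulRange exists_local)

section code

variable {A : Type*} [AddCommGroup A] {n Δ : ℕ}

/-- the `j`-th block, sheared -/
def block (g : Fin n → Fin Δ → A) (j : Fin n) :
    (A → (Fin n × Fin Δ) → ZMod 2) →ₗ[ZMod 2] (A → Fin Δ → ZMod 2) where
  toFun f := fun y s => f (y - g j s) (j, s)
  map_add' _ _ := rfl
  map_smul' _ _ := rfl

theorem block_apply (g : Fin n → Fin Δ → A) (j : Fin n) (f : A → (Fin n × Fin Δ) → ZMod 2)
    (y : A) (s : Fin Δ) : block g j f y s = f (y - g j s) (j, s) := rfl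

/-- the code of points and lines -/
def plCode (g : Fin n → Fin Δ → A) (B : Submodule (ZMod 2) (Fin n × Fin Δ → ZMod 2))
    (D : Fin n → Submodule (ZMod 2) (A → Fin Δ → ZMod 2)) :
    Submodule (ZMod 2) (A → (Fin n × Fin Δ) → ZMod 2) where
  carrier := {f | (∀ x, f x ∈ B) ∧ ∀ j, block g j f ∈ D j}
  add_mem' hf hg := ⟨fun x => B.add_mem (hf.1 x) (hg.1 x), fun j => by
    rw [map_add]; exact (D j).add_mem (hf.2 j) (hg.2 j)⟩
  zero_mem' := ⟨fun _ => B.zero_mem, fun j => by rw [map_zero]; exact (D j).zero_mem⟩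
  smul_mem' c _ hf := ⟨fun x => B.smul_mem c (hf.1 x), fun j => by
    rw [map_smul]; exact (D j).smul_mem c (hf.2 j)⟩

theorem plCode_inv (g : Fin n → Fin Δ → A) (B : Submodule (ZMod 2) (Fin n × Fin Δ → ZMod 2))
    {D : Fin n → Submodule (ZMod 2) (A → Fin Δ → ZMod 2)} (hD : ∀ j, InvI (D j)) :
    InvI (plCode g B D) := by
  intro a f hf
  refine ⟨fun x => hf.1 (x + a), fun j => ?_⟩
  have h1 := hD j a _ (hf.2 j)
  have h2 : (fun x => block g j f (x + a)) = block g j (fun x => f (x + a)) := by
    funext y s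
    rw [block_apply, block_apply]
    have : y + a - g j s = y - g j s + a := by abel
    rw [this]
  rw [h2] at h1
  exact h1

variable [Fintype A]

theorem plCode_finrank (g : Fin n → Fin Δ → A)
    (B : Submodule (ZMod 2) (Fin n × Fin Δ → ZMod 2))
    (D : Fin n → Submodule (ZMod 2) (A → Fin Δ → ZMod 2)) :
    Fintype.card A * (n * Δ) ≤ finrank (ZMod 2) (plCode g B D) +
      Fintype.card A * (n * Δ - finrank (ZMod 2) B) +
      ∑ j, (Fintype.card A * Δ - finrank (ZMod 2) (D j)) := by
  classical
  let L : (A → (Fin n × Fin Δ) → ZMod 2) →ₗ[ZMod 2]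
      ((A → (Fin n × Fin Δ → ZMod 2) ⧸ B) × (∀ j, (A → Fin Δ → ZMod 2) ⧸ D j)) :=
    LinearMap.prod
      { toFun := fun f => fun x => B.mkQ (f x)
        map_add' := fun f g => by funext x; exact map_add B.mkQ _ _
        map_smul' := fun c f => by funext x; exact map_smul B.mkQ _ _ }
      (LinearMap.pi fun j => (D j).mkQ ∘ₗ block g j)
  have hker : LinearMap.ker L ≤ plCode g B D := by
    intro f hf
    have h1 : L f = 0 := hf
    have h2 := congrArg Prod.fst h1
    have h3 := congrArg Prod.snd h1
    refine ⟨fun x => ?_, fun j => ?_⟩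
    · have := congrFun h2 x
      exact (Submodule.Quotient.mk_eq_zero B).1 this
    · have := congrFun h3 j
      exact (Submodule.Quotient.mk_eq_zero (D j)).1 this
  have h1 := LinearMap.finrank_range_add_finrank_ker L
  have h2 := Submodule.finrank_mono hker
  have h3 := Submodule.finrank_le (LinearMap.range L)
  have h4 : finrank (ZMod 2) (A → (Fin n × Fin Δ) → ZMod 2) = Fintype.card A * (n * Δ) := by
    rw [finrank_pi_fintype]
    simp
  have h5 : finrank (ZMod 2) ((A → (Fin n × Fin Δ → ZMod 2) ⧸ B) ×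
      (∀ j, (A → Fin Δ → ZMod 2) ⧸ D j)) =
      Fintype.card A * (n * Δ - finrank (ZMod 2) B) +
      ∑ j, (Fintype.card A * Δ - finrank (ZMod 2) (D j)) := by
    have h6 := Submodule.finrank_quotient_add_finrank B
    rw [finrank_fintype_fun_eq_card, Fintype.card_prod, Fintype.card_fin, Fintype.card_fin] at h6
    have h7 : finrank (ZMod 2) ((Fin n × Fin Δ → ZMod 2) ⧸ B) =
        n * Δ - finrank (ZMod 2) B := by omega
    rw [finrank_prod, finrank_pi_fintype, finrank_pi_fintype]
    congr 1
    · simp only [h7, Finset.sum_const, card_univ, smul_eq_mul]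
    · apply Finset.sum_congr rfl
      intro j _
      have h8 := Submodule.finrank_quotient_add_finrank (D j)
      have h9 : finrank (ZMod 2) (A → Fin Δ → ZMod 2) = Fintype.card A * Δ := by
        rw [finrank_pi_fintype]
        simp
      omega
  omega

theorem wt_block (g : Fin n → Fin Δ → A) (f : A → (Fin n × Fin Δ) → ZMod 2) :
    ∑ j, wtI (block g j f) = wtI f := by
  classical
  have h1 : ∀ j, wtI (block g j f) =
      (univ.filter fun p : A × Fin Δ => f p.1 (j, p.2) ≠ 0).card := by
    intro j
    unfold wtI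
    rw [← Set.ncard_coe_finset]
    apply Set.ncard_congr (fun q _ => (q.1 - g j q.2, q.2))
    · intro q hq
      rw [mem_coe, mem_filter]
      exact ⟨mem_univ _, hq⟩
    · intro q r _ _ h
      have h1 := (Prod.mk.inj h)
      have h2 : q.2 = r.2 := h1.2
      have h3 := h1.1
      rw [h2] at h3
      exact Prod.ext (sub_left_injective h3) h2
    · intro q hq
      rw [mem_coe, mem_filter] at hq
      refine ⟨(q.1 + g j q.2, q.2), ?_, ?_⟩
      · show f (q.1 + g j q.2 - g j q.2) (j, q.2) ≠ 0
        rw [add_sub_cancel_right]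
        exact hq.2
      · show (q.1 + g j q.2 - g j q.2, q.2) = q
        rw [add_sub_cancel_right]
  simp only [h1]
  unfold wtI
  have e1 : {q : A × (Fin n × Fin Δ) | f q.1 q.2 ≠ 0} =
      ((univ.filter fun q : A × (Fin n × Fin Δ) => f q.1 q.2 ≠ 0 : Finset _) : Set _) := by
    ext q; simp
  rw [e1, Set.ncard_coe_finset, Finset.card_eq_sum_card_fiberwise (f := fun q => q.2.1) (t := univ)
    (fun _ _ => mem_coe.2 (mem_univ _))]
  apply Finset.sum_congr rfl
  intro j _
  refine Finset.card_bij' (fun q _ => (q.1, (j, q.2))) (fun q _ => (q.1, q.2.2)) ?_ ?_ ?_ ?_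
  · intro q hq
    simp only [mem_filter, mem_univ, true_and] at hq ⊢
    exact ⟨hq, trivial⟩
  · rintro ⟨x, i, s⟩ hq
    simp only [mem_filter, mem_univ, true_and] at hq ⊢
    rw [← hq.2]
    exact hq.1
  · intro q _
    rfl
  · rintro ⟨x, i, s⟩ hq
    simp only [mem_filter, mem_univ, true_and] at hq
    rw [hq.2]

end code

/-- linear codes of rate 3/4 and relative distance 1/100 on a general index set -/
theorem exists_local' (n Δ : ℕ) :
    ∃ B : Submodule (ZMod 2) (Fin n × Fin Δ → ZMod 2), 3 * (n * Δ) ≤ 4 * finrank (ZMod 2) B ∧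
      ∀ w ∈ B, w ≠ 0 → n * Δ ≤ 100 * hammingNorm w := by
  classical
  obtain ⟨B, hB, hw⟩ := exists_local (n * Δ) ((3 * (n * Δ) + 3) / 4) (by omega)
  let E : (Fin n × Fin Δ → ZMod 2) ≃ₗ[ZMod 2] (Fin (n * Δ) → ZMod 2) :=
    LinearEquiv.funCongrLeft (ZMod 2) (ZMod 2) finProdFinEquiv.symm
  refine ⟨B.comap E.toLinearMap, ?_, ?_⟩
  · have h1 : finrank (ZMod 2) (B.comap E.toLinearMap) = finrank (ZMod 2) B := by
      have h2 : B.comap E.toLinearMap = B.map E.symm.toLinearMap :=
        Submodule.comap_equiv_eq_map_symm E B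
      rw [h2]
      exact LinearEquiv.finrank_map_eq E.symm B
    rw [h1]
    omega
  · intro w hwB h0
    have h1 : hammingNorm (E w) = hammingNorm w := by
      unfold hammingNorm
      apply Finset.card_bij (fun i _ => finProdFinEquiv.symm i)
      · intro i hi
        rw [mem_filter] at hi ⊢
        exact ⟨mem_univ _, hi.2⟩
      · intro i _ j _ hij
        exact finProdFinEquiv.symm.injective hij
      · intro p hp
        rw [mem_filter] at hp
        refine ⟨finProdFinEquiv p, ?_, Equiv.symm_apply_apply _ _⟩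
        rw [mem_filter]
        refine ⟨mem_univ _, ?_⟩
        show w (finProdFinEquiv.symm (finProdFinEquiv p)) ≠ 0
        rw [Equiv.symm_apply_apply]
        exact hp.2
    rw [← h1]
    apply hw _ hwB
    intro h
    exact h0 (E.map_eq_zero_iff.1 h)

theorem aux_sub {x y : ℕ} (h : 3 * y ≤ 4 * x) : 4 * (y - x) ≤ y := by omega

theorem aux_fin {x y z w t : ℕ} (h1 : x ≤ y + z + w) (h4 : 4 * w ≤ t) (h5 : 4 * z ≤ x)
    (h6 : t = x) : x ≤ 2 * y := by omega

section main

variable {A : Type*} [AddCommGroup A] [Fintype A]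

/-- **The code of points and lines** -/
theorem exists_point_line (A : Type*) [AddCommGroup A] [Fintype A] {r : ℕ} (a : Fin r → A)
    (ha : AddSubgroup.closure (Set.range a) = ⊤) (n : ℕ) (hn : 1000000 * (r + 2) ≤ n) :
    ∃ C : Submodule (ZMod 2) (A → (Fin n × Fin 1000000) → ZMod 2), InvI C ∧
      Nat.card A * (n * 1000000) ≤ 2 * finrank (ZMod 2) C ∧
      ∀ f ∈ C, f ≠ 0 → Nat.card A * (n * 1000000) ≤ 80000 * wtI f := by
  classical
  obtain ⟨u, g, hug⟩ := exists_choice a ha (Δ := 1000000) (n := n) (by norm_num) hn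
  obtain ⟨B, hBd, hB⟩ := exists_local' n 1000000
  have hD' : ∀ j, ∃ D : Submodule (ZMod 2) (A → Fin 1000000 → ZMod 2), InvI D ∧
      3 * (Nat.card A * 1000000) ≤ 4 * finrank (ZMod 2) D ∧
      ∀ f ∈ D, 1000000 * Set.ncard {a : A | ∃ k : ℕ, f (a + k • u j) ≠ 0} ≤ 400 * wtI f :=
    fun j => by
      have h := exists_line A (u j) 62500 (by norm_num)
      rw [show 16 * 62500 = 1000000 by norm_num] at h
      exact h
  choose D hDinv hDrank hDwt using hD'
  refine ⟨plCode g B D, plCode_inv g B hDinv, ?_, ?_⟩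
  · have h1 := plCode_finrank g B D
    rw [Nat.card_eq_fintype_card]
    have h2 : 4 * (n * 1000000 - finrank (ZMod 2) B) ≤ n * 1000000 := aux_sub hBd
    have h3 : ∀ j, 4 * (Fintype.card A * 1000000 - finrank (ZMod 2) (D j)) ≤
        Fintype.card A * 1000000 := by
      intro j
      have h4 := hDrank j
      rw [Nat.card_eq_fintype_card] at h4
      exact aux_sub h4
    have h4 : 4 * ∑ j, (Fintype.card A * 1000000 - finrank (ZMod 2) (D j)) ≤
        n * (Fintype.card A * 1000000) := by
      rw [Finset.mul_sum]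
      calc ∑ j, 4 * (Fintype.card A * 1000000 - finrank (ZMod 2) (D j)) ≤
          ∑ _j : Fin n, Fintype.card A * 1000000 := Finset.sum_le_sum fun j _ => h3 j
        _ = _ := by rw [Finset.sum_const, card_univ, Fintype.card_fin, smul_eq_mul]
    have h5 : 4 * (Fintype.card A * (n * 1000000 - finrank (ZMod 2) B)) ≤
        Fintype.card A * (n * 1000000) := by
      calc 4 * (Fintype.card A * (n * 1000000 - finrank (ZMod 2) B)) =
          Fintype.card A * (4 * (n * 1000000 - finrank (ZMod 2) B)) := by ring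
        _ ≤ _ := Nat.mul_le_mul_left _ h2
    have h6 : n * (Fintype.card A * 1000000) = Fintype.card A * (n * 1000000) := by ring
    exact aux_fin h1 h4 h5 h6
  · intro f hf h0
    let T : Finset A := univ.filter fun x => f x ≠ 0
    let T' : Fin n → Finset A := fun j => univ.filter fun y => ∃ k : ℕ, block g j f (y + k • u j) ≠ 0
    have hn1 : 1 ≤ n := by omega
    have hT : (n * 1000000) * T.card ≤ 100 * wtI f := by
      rw [wtI_eq_sum, Finset.mul_sum, mul_comm, ← smul_eq_mul, ← Finset.sum_const]
      calc ∑ _x ∈ T, n * 1000000 ≤ ∑ x ∈ T, 100 * hammingNorm (f x) :=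
            Finset.sum_le_sum fun x hx => hB _ (hf.1 x) (mem_filter.1 hx).2
        _ ≤ _ := Finset.sum_le_sum_of_subset (filter_subset _ _)
    have hT' : ∀ j, 1000000 * (T' j).card ≤ 400 * wtI (block g j f) := by
      intro j
      have h1 := hDwt j _ (hf.2 j)
      have h2 : {a : A | ∃ k : ℕ, block g j f (a + k • u j) ≠ 0} = ((T' j : Finset A) : Set A) := by
        ext y
        simp only [T', coe_filter, mem_univ, true_and, Set.mem_ofPred_eq]
      rw [h2, Set.ncard_coe_finset] at h1
      exact h1
    have hY : 1000000 * ∑ j, (T' j).card ≤ 400 * wtI f := by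
      rw [← wt_block g f, Finset.mul_sum, Finset.mul_sum]
      exact Finset.sum_le_sum fun j _ => hT' j
    have hinv : ∀ j, ∀ y ∈ T' j, y + u j ∈ T' j := by
      intro j y hy
      obtain ⟨k, hk⟩ := (mem_filter.1 hy).2
      refine mem_filter.2 ⟨mem_univ _, ?_⟩
      -- use periodicity
      have ht : 0 < addOrderOf (u j) := addOrderOf_pos (u j)
      refine ⟨k + (addOrderOf (u j) - 1), ?_⟩
      have h3 : y + u j + (k + (addOrderOf (u j) - 1)) • u j = y + k • u j := by
        have h4 : (addOrderOf (u j) - 1) • u j + u j = 0 := by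
          rw [← succ_nsmul, Nat.sub_add_cancel ht, addOrderOf_nsmul_eq_zero]
        rw [add_nsmul]
        calc y + u j + (k • u j + (addOrderOf (u j) - 1) • u j) =
            y + k • u j + ((addOrderOf (u j) - 1) • u j + u j) := by abel
          _ = _ := by rw [h4, add_zero]
      rw [h3]
      exact hk
    have hW : (wtI f : ℝ) ≤ ∑ j, ∑ s, ((T.filter fun a => a + g j s ∈ T' j).card : ℝ) := by
      have h1 : wtI f ≤ ∑ j, ∑ s, (T.filter fun a => a + g j s ∈ T' j).card := by
        unfold wtI
        have e1 : {q : A × (Fin n × Fin 1000000) | f q.1 q.2 ≠ 0} =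
            ((univ.filter fun q : A × (Fin n × Fin 1000000) => f q.1 q.2 ≠ 0 : Finset _) :
              Set _) := by
          ext q; simp
        rw [e1, Set.ncard_coe_finset, Finset.card_eq_sum_card_fiberwise (f := fun q => q.2)
          (t := univ) (fun _ _ => mem_coe.2 (mem_univ _)), ← Finset.univ_product_univ,
          Finset.sum_product]
        apply Finset.sum_le_sum
        intro j _
        apply Finset.sum_le_sum
        intro s _
        apply Finset.card_le_card_of_injOn (fun q => q.1)
        · rintro ⟨x, i, t⟩ hq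
          simp only [coe_filter, mem_univ, true_and, Set.mem_ofPred_eq, mem_filter] at hq
          obtain ⟨h2, h3⟩ := hq
          obtain ⟨rfl, rfl⟩ := Prod.mk.inj h3
          simp only [T, T', coe_filter, mem_univ, true_and, Set.mem_ofPred_eq, mem_filter]
          refine ⟨?_, 0, ?_⟩
          · intro h4
            exact h2 (by rw [h4]; rfl)
          · intro h4
            rw [zero_nsmul, add_zero] at h4
            have h5 := congrFun h4 t
            rw [block_apply, add_sub_cancel_right] at h5
            exact h2 h5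
        · rintro ⟨x, i, t⟩ hq ⟨x', i', t'⟩ hq' h
          simp only [coe_filter, mem_univ, true_and, Set.mem_ofPred_eq] at hq hq'
          refine Prod.ext h ?_
          show (i, t) = (i', t')
          rw [hq.2, hq'.2]
      exact_mod_cast h1
    have hmix := mixing_lines hn1 u g (lam := 1 / 500) (by norm_num) (fun χ hχ => by
      refine (hug χ hχ).trans (le_of_eq ?_)
      push_cast
      ring) T T' hinv
    have hA : (0 : ℝ) < Fintype.card A := by exact_mod_cast Fintype.card_pos
    have hn' : (0 : ℝ) < n := by exact_mod_cast hn1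
    have hW0 : 0 < wtI f := by
      rw [wtI_eq_sum]
      obtain ⟨x, hx⟩ := Function.ne_iff.1 h0
      apply Finset.sum_pos'
      · intro _ _; exact Nat.zero_le _
      · exact ⟨x, mem_univ _, hammingNorm_pos_iff.2 hx⟩
    rw [Nat.card_eq_fintype_card]
    have hWpos : (0 : ℝ) < (wtI f : ℝ) := by exact_mod_cast hW0
    have hS' : (n : ℝ) * 1000000 * T.card ≤ 100 * (wtI f : ℝ) := by exact_mod_cast hT
    have hT'' : (1000000 : ℝ) * (∑ j, ((T' j).card : ℝ)) ≤ 400 * (wtI f : ℝ) := by
      exact_mod_cast hY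
    have hW' := hW.trans hmix
    have hgoal : (Fintype.card A : ℝ) * (n * 1000000) ≤ 80000 * (wtI f : ℝ) := by
      generalize (wtI f : ℝ) = W at *
      have hYnn : (0 : ℝ) ≤ ∑ j, ((T' j).card : ℝ) :=
        Finset.sum_nonneg fun j _ => Nat.cast_nonneg _
      generalize (∑ j, ((T' j).card : ℝ)) = Y at *
      have hY0 : (0 : ℝ) ≤ T.card := Nat.cast_nonneg _
      generalize (T.card : ℝ) = t at *
      have h1 : ((1000000 : ℕ) : ℝ) * t * Y / Fintype.card A ≤
          (100 * W) * (400 * W) / (n * 1000000 * Fintype.card A) := by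
        rw [div_le_div_iff₀ hA (by positivity)]
        have h2 : ((n : ℝ) * 1000000 * t) * (1000000 * Y) ≤ (100 * W) * (400 * W) :=
          mul_le_mul hS' hT'' (by positivity) (by positivity)
        push_cast
        nlinarith [mul_le_mul_of_nonneg_right h2 hA.le]
      push_cast at hW' h1
      have h2 : W / 2 ≤ (100 * W) * (400 * W) / (n * 1000000 * Fintype.card A) := by
        linarith
      rw [le_div_iff₀ (by positivity)] at h2
      have h4 : W * (Fintype.card A * (n * 1000000)) ≤ W * (80000 * W) := by nlinarith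
      exact le_of_mul_le_mul_left h4 hWpos
    exact_mod_cast hgoal

end main

end Pool.Agent.Lib.MP_0430e4_lc.Free2
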