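import Mathlib
import Pool.Agent.Lib.MP_0430e4_lc.Free2.R0
import Pool.Agent.Lib.MP_0430e4_lc.Free.Final
import Pool.Agent.Lib.MP_0430e4_lc.Free2.U8

/-!
# The rank threshold for free abelian symmetries of good codes (helper91): the upper bound
-/

namespace Pool.Agent.Lib.MP_0430e4_lc.Free2

open Finset Module
open Pool.Agent.Lib.MP_0430e4_lc.Free (wt Inv Good mulRange exists_local)

section pad

variable {A ι κ : Type*}

/-- extension by zero -/
def pad [DecidableEq κ] [Fintype ι] (e : ι ↪ κ) : (A → ι → ZMod 2) →ₗ[ZMod 2] (A → κ → ZMod 2) where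
  toFun f := fun x k => ∑ i, if e i = k then f x i else 0
  map_add' f g := by
    funext x k
    simp only [Pi.add_apply]
    rw [← Finset.sum_add_distrib]
    apply Finset.sum_congr rfl
    intro i _
    split_ifs <;> simp
  map_smul' c f := by
    funext x k
    simp only [Pi.smul_apply, smul_eq_mul, RingHom.id_apply, Finset.mul_sum]
    apply Finset.sum_congr rfl
    intro i _
    split_ifs <;> simp

theorem pad_apply [DecidableEq κ] [Fintype ι] (e : ι ↪ κ) (f : A → ι → ZMod 2) (x : A) (i : ι) :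
    pad e f x (e i) = f x i := by
  classical
  show ∑ j, (if e j = e i then f x j else 0) = f x i
  rw [Finset.sum_eq_single i]
  · rw [if_pos rfl]
  · intro j _ hj
    rw [if_neg]
    intro h
    exact hj (e.injective h)
  · intro h; exact absurd (mem_univ _) h

theorem pad_apply_notMem [DecidableEq κ] [Fintype ι] (e : ι ↪ κ) (f : A → ι → ZMod 2) (x : A) {k : κ}
    (hk : ∀ i, e i ≠ k) : pad e f x k = 0 := by
  show ∑ j, (if e j = k then f x j else 0) = 0
  apply Finset.sum_eq_zero
  intro j _
  rw [if_neg (hk j)]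

theorem pad_injective [DecidableEq κ] [Fintype ι] (e : ι ↪ κ) :
    Function.Injective (pad e : (A → ι → ZMod 2) →ₗ[ZMod 2] (A → κ → ZMod 2)) := by
  intro f g h
  funext x i
  rw [← pad_apply e f x i, h, pad_apply]

theorem wtI_pad [Finite A] [Finite κ] [DecidableEq κ] [Fintype ι] (e : ι ↪ κ) (f : A → ι → ZMod 2) :
    wtI f ≤ wtI (pad e f) := by
  unfold wtI
  apply Set.ncard_le_ncard_of_injOn (fun q => (q.1, e q.2))
  · intro q hq
    show pad e f q.1 (e q.2) ≠ 0
    rw [pad_apply]
    exact hq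
  · intro q _ r _ h
    exact Prod.ext (Prod.mk.inj h).1 (e.injective (Prod.mk.inj h).2)

end pad

theorem exists_good_rank (A : Type*) [AddCommGroup A] [Fintype A] {r : ℕ} (a : Fin r → A)
    (ha : AddSubgroup.closure (Set.range a) = ⊤) (ℓ : ℕ) (hℓ : 1 ≤ ℓ)
    (h : 4 * 10 ^ 12 * r ≤ ℓ) :
    ∃ C : Submodule (ZMod 2) (A → Fin ℓ → ZMod 2), Inv C ∧
      (1 / 4 : ℝ) * (ℓ * Nat.card A) ≤ finrank (ZMod 2) C ∧
      ∀ f ∈ C, f ≠ 0 → (1 / 160000 : ℝ) * (ℓ * Nat.card A) ≤ wt f := by
  classical
  rcases Nat.eq_zero_or_pos r with hr | hr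
  · subst hr
    have hA : ∀ x : A, x = 0 := by
      intro x
      have h1 : x ∈ (⊤ : AddSubgroup A) := AddSubgroup.mem_top x
      rw [← ha, Set.range_eq_empty, AddSubgroup.closure_empty, AddSubgroup.mem_bot] at h1
      exact h1
    have hsub : Subsingleton A := ⟨fun x y => by rw [hA x, hA y]⟩
    have hcard : Nat.card A = 1 := Nat.card_unique
    obtain ⟨B, hB, hw⟩ := exists_local ℓ ((3 * ℓ + 3) / 4) (by omega)
    let E : (A → Fin ℓ → ZMod 2) →ₗ[ZMod 2] (Fin ℓ → ZMod 2) := LinearMap.proj 0
    have hE : Function.Bijective E := by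
      constructor
      · intro f g hfg
        funext x
        rw [hA x]
        exact hfg
      · intro g
        exact ⟨fun _ => g, rfl⟩
    let E' := LinearEquiv.ofBijective E hE
    refine ⟨B.comap E, ?_, ?_, ?_⟩
    · intro b f hf
      have : (fun x => f (x + b)) = f := by
        funext x
        rw [Subsingleton.elim (x + b) x]
      rw [this]
      exact hf
    · have h1 : finrank (ZMod 2) (B.comap E) = finrank (ZMod 2) B := by
        have h2 : B.comap E = B.map E'.symm.toLinearMap :=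
          Submodule.comap_equiv_eq_map_symm E' B
        rw [h2]
        exact LinearEquiv.finrank_map_eq E'.symm B
      rw [h1, hcard]
      have h2 : ℓ ≤ 4 * finrank (ZMod 2) B := by omega
      have h3 : (ℓ : ℝ) ≤ 4 * finrank (ZMod 2) B := by exact_mod_cast h2
      push_cast
      linarith
    · intro f hf h0
      have h1 := hw (E f) hf (fun h => h0 (by
        have := hE.1 (h.trans (map_zero E).symm)
        exact this))
      have h2 : hammingNorm (E f) ≤ wtI f := by
        have e1 : wtI f = ∑ x, hammingNorm (f x) := wtI_eq_sum f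
        rw [e1]
        exact Finset.single_le_sum (f := fun x => hammingNorm (f x)) (fun _ _ => Nat.zero_le _)
          (mem_univ (0 : A))
      have h3 : (ℓ : ℝ) ≤ 100 * (wtI f : ℝ) := by
        exact_mod_cast h1.trans (Nat.mul_le_mul_left _ h2)
      have h4 : (wt f : ℝ) = (wtI f : ℝ) := rfl
      rw [h4, hcard]
      push_cast
      have h5 : (0 : ℝ) ≤ wtI f := Nat.cast_nonneg _
      linarith
  · obtain ⟨n, hn1, hn2, hn3⟩ : ∃ n : ℕ, 1000000 * (r + 2) ≤ n ∧ n * 1000000 ≤ ℓ ∧
        ℓ ≤ 2 * (n * 1000000) := by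
      refine ⟨ℓ / 1000000, ?_, ?_, ?_⟩
      · norm_num at h
        omega
      · omega
      · norm_num at h
        omega
    obtain ⟨C, hC, hrank, hwt⟩ := exists_point_line A a ha n hn1
    have hemb : Nonempty ((Fin n × Fin 1000000) ↪ Fin ℓ) := by
      have e1 : (Fin n × Fin 1000000) ≃ Fin (n * 1000000) := finProdFinEquiv
      exact ⟨e1.toEmbedding.trans (Fin.castLEEmb hn2)⟩
    obtain ⟨e⟩ := hemb
    refine ⟨C.map (pad e), ?_, ?_, ?_⟩
    · rintro b _ ⟨f, hf, rfl⟩
      exact ⟨fun x => f (x + b), hC b f hf, rfl⟩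
    · have h1 : finrank (ZMod 2) C ≤ finrank (ZMod 2) (C.map (pad e)) :=
        (Submodule.equivMapOfInjective (pad e) (pad_injective e) C).finrank_eq.le
      have h2 : Nat.card A * ℓ ≤ 4 * finrank (ZMod 2) (C.map (pad e)) := by
        calc Nat.card A * ℓ ≤ Nat.card A * (2 * (n * 1000000)) := Nat.mul_le_mul_left _ hn3
          _ = 2 * (Nat.card A * (n * 1000000)) := by ring
          _ ≤ 2 * (2 * finrank (ZMod 2) C) := Nat.mul_le_mul_left _ hrank
          _ ≤ 2 * (2 * finrank (ZMod 2) (C.map (pad e))) :=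
            Nat.mul_le_mul_left _ (Nat.mul_le_mul_left _ h1)
          _ = _ := by ring
      have h3 : (Nat.card A : ℝ) * ℓ ≤ 4 * (finrank (ZMod 2) (C.map (pad e)) : ℝ) := by
        exact_mod_cast h2
      linarith
    · rintro _ ⟨f, hf, rfl⟩ h0
      have h1 := hwt f hf (fun h => h0 (by rw [h, map_zero]))
      have h2 : Nat.card A * ℓ ≤ 160000 * wtI (pad e f) := by
        calc Nat.card A * ℓ ≤ Nat.card A * (2 * (n * 1000000)) := Nat.mul_le_mul_left _ hn3
          _ = 2 * (Nat.card A * (n * 1000000)) := by ring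
          _ ≤ 2 * (80000 * wtI f) := Nat.mul_le_mul_left _ h1
          _ ≤ 2 * (80000 * wtI (pad e f)) :=
            Nat.mul_le_mul_left _ (Nat.mul_le_mul_left _ (wtI_pad e f))
          _ = _ := by ring
      have h3 : (Nat.card A : ℝ) * ℓ ≤ 160000 * (wtI (pad e f) : ℝ) := by
        exact_mod_cast h2
      have h4 : (wt (pad e f) : ℝ) = (wtI (pad e f) : ℝ) := rfl
      rw [h4]
      linarith

/-- **The upper bound**, for groups of permutations -/
theorem upper_rank (A : Type) [CommGroup A] [Fintype A] (S : Finset A)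
    (hS : Subgroup.closure (S : Set A) = ⊤) (ℓ : ℕ) (hℓ : 1 ≤ ℓ)
    (h : 4 * 10 ^ 12 * S.card ≤ ℓ) :
    ∃ (X : Type) (_ : Fintype X) (C : Submodule (ZMod 2) (X → ZMod 2))
      (G : Subgroup (Equiv.Perm X)), Fintype.card X = ℓ * Fintype.card A ∧
        Good (1 / 4) (1 / 160000) C ∧ FreeAut G C ∧ Nonempty (G ≃* A) := by
  classical
  let a : Fin S.card → Additive A := fun i => Additive.ofMul (S.equivFin.symm i : A)
  have ha : AddSubgroup.closure (Set.range a) = ⊤ := by
    rw [eq_top_iff]
    intro x _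
    have h1 : Additive.toMul x ∈ Subgroup.closure (S : Set A) := by rw [hS]; trivial
    refine Subgroup.closure_induction (p := fun y _ => Additive.ofMul y ∈
      AddSubgroup.closure (Set.range a)) ?_ ?_ ?_ ?_ h1
    · intro y hy
      apply AddSubgroup.subset_closure
      refine ⟨S.equivFin ⟨y, hy⟩, ?_⟩
      show Additive.ofMul ((S.equivFin.symm (S.equivFin ⟨y, hy⟩) : S) : A) = Additive.ofMul y
      rw [Equiv.symm_apply_apply]
    · exact AddSubgroup.zero_mem _
    · intro y z _ _ hy hz
      exact AddSubgroup.add_mem _ hy hz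
    · intro y _ hy
      exact AddSubgroup.neg_mem _ hy
  obtain ⟨C, hC, hrate, hdist⟩ := exists_good_rank (Additive A) a ha ℓ hℓ h
  have hcard : Fintype.card (A × Fin ℓ) = ℓ * Fintype.card A := by
    rw [Fintype.card_prod, Fintype.card_fin, mul_comm]
  have hcard' : (Fintype.card (A × Fin ℓ) : ℝ) = ℓ * Nat.card (Additive A) := by
    rw [hcard, Nat.card_eq_fintype_card, Fintype.card_additive]
    push_cast
    rfl
  let E : Additive A × Fin ℓ ≃ A × Fin ℓ := Additive.toMul.prodCongr (Equiv.refl _)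
  have hinj : Function.Injective (Free.shiftHom A ℓ) := by
    intro a b hab
    have h1 := congrArg (fun g : Equiv.Perm (A × Fin ℓ) => (g (1, ⟨0, hℓ⟩)).1) hab
    simpa [Free.shiftHom_apply] using h1
  refine ⟨A × Fin ℓ, inferInstance, C.map (Free.onX E), (Free.shiftHom A ℓ).range, hcard, ⟨?_, ?_⟩,
    ⟨?_, ?_⟩, ⟨(MonoidHom.ofInjective hinj).symm⟩⟩
  · rw [hcard']
    have h1 : finrank (ZMod 2) C ≤ finrank (ZMod 2) (C.map (Free.onX E)) := by
      have hinjE : Function.Injective (Free.onX E) := by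
        intro f g hfg
        funext a j
        have h2 := congrFun hfg (E (a, j))
        rw [Free.onX_apply, Free.onX_apply, E.symm_apply_apply] at h2
        exact h2
      exact (Submodule.equivMapOfInjective (Free.onX E) hinjE C).finrank_eq.le
    exact hrate.trans (by exact_mod_cast h1)
  · rintro _ ⟨f, hf, rfl⟩ h0
    rw [hcard', Free.norm_onX]
    apply hdist f hf
    rintro rfl
    exact h0 (map_zero _)
  · rintro _ ⟨a, rfl⟩ hne x hx
    apply hne
    rw [Free.shiftHom_apply] at hx
    have h1 : a * x.1 = x.1 := congrArg Prod.fst hx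
    have h2 : a = 1 := by simpa using h1
    rw [h2, map_one]
  · rintro _ ⟨a, rfl⟩ _ ⟨f, hf, rfl⟩
    refine ⟨fun x => f (x + Additive.ofMul a), hC _ _ hf, ?_⟩
    funext x
    rw [Function.comp_apply, Free.onX_apply, Free.onX_apply, Free.shiftHom_apply]
    show f (Additive.ofMul x.1 + Additive.ofMul a) x.2 = f (Additive.ofMul (a * x.1)) x.2
    rw [← ofMul_mul, mul_comm]

end Pool.Agent.Lib.MP_0430e4_lc.Free2
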